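import Pool.Agent.D0H64.WS.Ver
import Pool.Agent.D0H42.SFK.SN

/-!
# Project TI: a congruence condition which forces `S_n` and no ramification at the primes `p ≤ n`
-/

set_option autoImplicit false
set_option linter.all false

open Polynomial NumberField

namespace Pool.Agent.D0H15.TI

open Pool.Agent.D0H15.SK (pol polK pol_monic pol_natDegree pol_coeff pol_coeff_pred minpoly_root)
open Pool.Agent.D0H42.SFK
open Pool.Agent.D0H64.WS (Dat)

/-- `t_SN` with a modulus prime to `n!` (copy of the proof of `Pool.Agent.D0H42.SFK.t_SN`) -/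
theorem sn (K : Type) [Field K] [NumberField K] (n : ℕ) (hn : 4 ≤ n) : ∃ q : ℕ, 1 ≤ q ∧
    (∀ p : ℕ, p.Prime → p ≤ n → ¬ p ∣ q) ∧
    ∃ a0 : Fin (n - 1) → 𝓞 K, ∀ a : Fin (n - 1) → 𝓞 K, (∀ i, (q : 𝓞 K) ∣ a i - a0 i) →
    Irreducible (polK n a) ∧
    ∀ θ : AlgebraicClosure K, aeval θ (polK n a) = 0 →
      Pool.Agent.D0H15.SK.Sym (IntermediateField.adjoin K {θ}) := by
  obtain ⟨p₁, hp1, hP1⟩ := Nat.exists_infinite_primes (n + 1)
  obtain ⟨p₂, hp2, hP2⟩ := Nat.exists_infinite_primes (p₁ + 1)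
  obtain ⟨p₃, hp3, hP3⟩ := Nat.exists_infinite_primes (p₂ + 1)
  have f1 : Fact p₁.Prime := ⟨hP1⟩
  have f2 : Fact p₂.Prime := ⟨hP2⟩
  have f3 : Fact p₃.Prime := ⟨hP3⟩
  obtain ⟨P₁, M1, n1, q1⟩ := exists_over K p₁
  obtain ⟨P₂, M2, n2, q2⟩ := exists_over K p₂
  obtain ⟨P₃, M3, n3, q3⟩ := exists_over K p₃
  letI I1 : Field (𝓞 K ⧸ P₁) := Ideal.Quotient.field P₁
  letI I2 : Field (𝓞 K ⧸ P₂) := Ideal.Quotient.field P₂
  letI I3 : Field (𝓞 K ⧸ P₃) := Ideal.Quotient.field P₃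
  have F1 : Finite (𝓞 K ⧸ P₁) := Ring.HasFiniteQuotients.finiteQuotient n1
  have F2 : Finite (𝓞 K ⧸ P₂) := Ring.HasFiniteQuotients.finiteQuotient n2
  have F3 : Finite (𝓞 K ⧸ P₃) := Ring.HasFiniteQuotients.finiteQuotient n3
  have C1 : CharP (𝓞 K ⧸ P₁) p₁ := by
    apply (CharP.charP_iff_prime_eq_zero hP1).mpr
    have h1 : (Ideal.Quotient.mk P₁) (p₁ : 𝓞 K) = 0 := Ideal.Quotient.eq_zero_iff_mem.mpr q1
    rwa [map_natCast] at h1
  have C2 : CharP (𝓞 K ⧸ P₂) p₂ := by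
    apply (CharP.charP_iff_prime_eq_zero hP2).mpr
    have h1 : (Ideal.Quotient.mk P₂) (p₂ : 𝓞 K) = 0 := Ideal.Quotient.eq_zero_iff_mem.mpr q2
    rwa [map_natCast] at h1
  have C3 : CharP (𝓞 K ⧸ P₃) p₃ := by
    apply (CharP.charP_iff_prime_eq_zero hP3).mpr
    have h1 : (Ideal.Quotient.mk P₃) (p₃ : 𝓞 K) = 0 := Ideal.Quotient.eq_zero_iff_mem.mpr q3
    rwa [map_natCast] at h1
  obtain ⟨g₁, m1, d1, c1, t1⟩ := exA (𝓞 K ⧸ P₁) p₁ n hn (by omega)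
  obtain ⟨g₂, m2, d2, c2, t2⟩ := exB (𝓞 K ⧸ P₂) p₂ n hn (by omega)
  obtain ⟨g₃, m3, d3, c3, t3⟩ := exC (𝓞 K ⧸ P₃) p₃ n hn (by omega)
  choose a0 ha1 ha2 ha3 using fun i : Fin (n - 1) =>
    crt3 (𝓞 K) P₁ P₂ P₃ p₁ p₂ p₃ hP1 hP2 hP3 (by omega) (by omega) (by omega) q1 q2 q3
      (g₁.coeff (i : ℕ)) (g₂.coeff (i : ℕ)) (g₃.coeff (i : ℕ))
  refine ⟨p₁ * p₂ * p₃, ?_, ?_, a0, ?_⟩
  · exact Nat.mul_pos (Nat.mul_pos hP1.pos hP2.pos) hP3.pos
  · intro p hp hpn hd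
    rcases (Nat.Prime.dvd_mul hp).1 hd with h | h
    · rcases (Nat.Prime.dvd_mul hp).1 h with h | h
      · have := (Nat.prime_dvd_prime_iff_eq hp hP1).1 h
        omega
      · have := (Nat.prime_dvd_prime_iff_eq hp hP2).1 h
        omega
    · have := (Nat.prime_dvd_prime_iff_eq hp hP3).1 h
      omega
  intro a ha
  have hcast : ∀ (P : Ideal (𝓞 K)) (p : ℕ), (p : 𝓞 K) ∈ P → p ∣ p₁ * p₂ * p₃ →
      ∀ i, Ideal.Quotient.mk P (a i) = Ideal.Quotient.mk P (a0 i) := by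
    intro P p hpP hp i
    rw [Ideal.Quotient.eq]
    obtain ⟨w, hw⟩ := ha i
    obtain ⟨v, hv⟩ := hp
    rw [hw, hv]
    push_cast
    rw [mul_assoc]
    exact Ideal.mul_mem_right _ _ hpP
  have e1 := pol_map K _ (Ideal.Quotient.mk P₁) n (by omega) g₁ m1 d1 c1 a (fun i => by
    rw [hcast P₁ p₁ q1 ⟨p₂ * p₃, by ring⟩ i, ha1])
  have e2 := pol_map K _ (Ideal.Quotient.mk P₂) n (by omega) g₂ m2 d2 c2 a (fun i => by
    rw [hcast P₂ p₂ q2 ⟨p₁ * p₃, by ring⟩ i, ha2])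
  have e3 := pol_map K _ (Ideal.Quotient.mk P₃) n (by omega) g₃ m3 d3 c3 a (fun i => by
    rw [hcast P₃ p₃ q3 ⟨p₁ * p₂, by ring⟩ i, ha3])
  have hm := pol_monic n (by omega) a
  have hirrZ : Irreducible (pol n a) :=
    hm.irreducible_of_irreducible_map (Ideal.Quotient.mk P₁) _ (by rw [e1]; exact t1)
  have hirr : Irreducible (polK n a) :=
    (hm.irreducible_iff_irreducible_map_fraction_map (K := K)).1 hirrZ
  refine ⟨hirr, fun θ hθ => ?_⟩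
  exact main_sym K (pol n a) hm hirr P₂ P₃ (n - 2) n2 n3 (by rw [e2]; exact t2)
    (by rw [e3]; exact t3) θ hθ

/-- the polynomial `X^n + A X + 1` -/
theorem trin {k : Type} [CommRing k] [Nontrivial k] (n : ℕ) (hn : 4 ≤ n) (A : k) :
    (X ^ n + C A * X + 1 : k[X]).Monic ∧ (X ^ n + C A * X + 1 : k[X]).natDegree = n ∧
    (X ^ n + C A * X + 1 : k[X]).coeff (n - 1) = 0 ∧
    ∀ i : ℕ, i < n - 1 → (X ^ n + C A * X + 1 : k[X]).coeff i = if i = 0 then 1 else if i = 1 then A else 0 := by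
  have hd : (C A * X + 1 : k[X]).natDegree ≤ 1 := by
    rw [← C_1]
    exact natDegree_linear_le
  have hd2 : (C A * X + 1 : k[X]).degree < (n : ℕ) :=
    lt_of_le_of_lt degree_le_natDegree (by exact_mod_cast (by omega : (C A * X + 1 : k[X]).natDegree < n))
  have hm : (X ^ n + (C A * X + 1) : k[X]).Monic := monic_X_pow_add hd2
  have hdeg : (X ^ n + (C A * X + 1) : k[X]).natDegree = n := by
    rw [natDegree_add_eq_left_of_natDegree_lt, natDegree_X_pow]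
    rw [natDegree_X_pow]
    omega
  have hc : ∀ i : ℕ, i < n → (X ^ n + C A * X + 1 : k[X]).coeff i = if i = 0 then 1 else if i = 1 then A else 0 := by
    intro i hi
    rw [coeff_add, coeff_add, coeff_X_pow, coeff_C_mul, coeff_X, coeff_one]
    rcases Nat.eq_zero_or_pos i with rfl | h0
    · simp [show (0 : ℕ) ≠ n by omega]
    · rcases Nat.eq_or_lt_of_le h0 with h1 | h1
      · have h1' : i = 1 := by omega
        subst h1'
        simp [show (1 : ℕ) ≠ n by omega]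
      · simp [show i ≠ n by omega, show i ≠ 0 by omega, show i ≠ 1 by omega, show (1 : ℕ) ≠ i by omega]
  rw [← add_assoc] at hm hdeg
  refine ⟨hm, hdeg, ?_, fun i hi => hc i (by omega)⟩
  rw [hc (n - 1) (by omega)]
  simp [show n - 1 ≠ 0 by omega, show n - 1 ≠ 1 by omega]

/-- no ramification at `p` -/
theorem unram (n : ℕ) (hn : 4 ≤ n) (A p : ℕ) (hp : p.Prime)
    (hpA : (¬ p ∣ n ∧ p ∣ A) ∨ (p ∣ n ∧ ¬ p ∣ A)) (a : Fin (n - 1) → 𝓞 ℚ)
    (ha : ∀ i, (p : 𝓞 ℚ) ∣ a i - ((if (i : ℕ) = 0 then 1 else if (i : ℕ) = 1 then A else 0 : ℕ) : 𝓞 ℚ))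
    (hirr : Irreducible (polK n a)) (θ : AlgebraicClosure ℚ) (hθ : aeval θ (polK n a) = 0)
    [NumberField (IntermediateField.adjoin ℚ {θ})] :
    ¬ (p : ℤ) ∣ NumberField.discr (IntermediateField.adjoin ℚ {θ}) := by
  set L := IntermediateField.adjoin ℚ {θ} with hL
  rw [NumberField.not_dvd_discr_iff_forall_mem L (𝓞 L) (Nat.prime_iff_prime_int.1 hp)]
  intro P hP hpP
  rw [← not_dvd_differentIdeal_iff]
  intro hdvd
  have hmon := pol_monic n (by omega) a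
  let f0 : ℤ[X] := (pol n a).map (Rat.ringOfIntegersEquiv : 𝓞 ℚ →+* ℤ)
  have hf0m : f0.Monic := hmon.map _
  have hf0Q : f0.map (algebraMap ℤ ℚ) = polK n a := by
    show ((pol n a).map _).map _ = (pol n a).map _
    rw [Polynomial.map_map]
    congr 1
    ext x
    simp
  have hθL : θ ∈ L := IntermediateField.mem_adjoin_simple_self ℚ θ
  have hint : IsIntegral ℤ θ := by
    refine ⟨f0, hf0m, ?_⟩
    have h1 : aeval θ (f0.map (algebraMap ℤ ℚ)) = 0 := by rw [hf0Q]; exact hθ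
    rw [aeval_map_algebraMap] at h1
    exact h1
  have hint' : IsIntegral ℤ (⟨θ, hθL⟩ : L) := by
    rw [← isIntegral_algebraMap_iff (B := AlgebraicClosure ℚ) (algebraMap L (AlgebraicClosure ℚ)).injective]
    exact hint
  let x : 𝓞 L := ⟨⟨θ, hθL⟩, hint'⟩
  have hxθ : algebraMap (𝓞 L) L x = ⟨θ, hθL⟩ := rfl
  have hintQ : IsIntegral ℚ θ := hint.tower_top
  have hadj : Algebra.adjoin ℚ {algebraMap (𝓞 L) L x} = ⊤ := by
    rw [hxθ]
    exact (IntermediateField.adjoin.powerBasis hintQ).adjoin_gen_eq_top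
  have hminQ : minpoly ℚ (algebraMap (𝓞 L) L x) = polK n a := by
    rw [hxθ]
    have h1 : minpoly ℚ (⟨θ, hθL⟩ : L) = minpoly ℚ θ := by
      rw [← minpoly.algebraMap_eq (algebraMap L (AlgebraicClosure ℚ)).injective (⟨θ, hθL⟩ : L)]
      rfl
    rw [h1]
    exact (minpoly.eq_of_irreducible_of_monic hirr hθ (Pool.Agent.D0H15.SK.polK_monic n (by omega) a)).symm
  have hintx : IsIntegral ℤ x := RingOfIntegers.isIntegral x
  have hmin : minpoly ℤ x = f0 := by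
    have h1 := minpoly.isIntegrallyClosed_eq_field_fractions ℚ L hintx
    rw [hminQ, ← hf0Q] at h1
    exact (Polynomial.map_injective _ (RingHom.injective_int (algebraMap ℤ ℚ)) h1).symm
  have hder := aeval_derivative_mem_differentIdeal ℤ ℚ L x hadj
  rw [hmin] at hder
  have hderP : aeval x (derivative f0) ∈ P := (Ideal.dvd_iff_le.1 hdvd) hder
  have hP1 : P ≠ ⊤ := hP.ne_top
  have hnt : Nontrivial (𝓞 L ⧸ P) := Ideal.Quotient.nontrivial_iff.2 hP1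
  have hpk : ((p : ℕ) : 𝓞 L ⧸ P) = 0 := by
    have h1 : Ideal.Quotient.mk P ((p : ℤ) : 𝓞 L) = 0 := Ideal.Quotient.eq_zero_iff_mem.2 hpP
    rw [map_intCast] at h1
    exact_mod_cast h1
  have hcop : ∀ m : ℕ, ¬ p ∣ m → ((m : ℕ) : 𝓞 L ⧸ P) ≠ 0 := by
    intro m hm h0
    have h1 : IsCoprime (p : ℤ) (m : ℤ) := by
      rw [Nat.isCoprime_iff_coprime]
      exact (Nat.Prime.coprime_iff_not_dvd hp).2 hm
    obtain ⟨u, v, huv⟩ := h1
    have h2 : ((u * p + v * m : ℤ) : 𝓞 L ⧸ P) = ((1 : ℤ) : 𝓞 L ⧸ P) := by rw [huv]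
    push_cast at h2
    rw [hpk, h0, mul_zero, mul_zero, add_zero] at h2
    exact one_ne_zero h2.symm
  let φ : 𝓞 ℚ →+* 𝓞 L ⧸ P := (Int.castRingHom (𝓞 L ⧸ P)).comp (Rat.ringOfIntegersEquiv : 𝓞 ℚ →+* ℤ)
  obtain ⟨t1, t2, t3, t4⟩ := trin (k := 𝓞 L ⧸ P) n hn (A : 𝓞 L ⧸ P)
  have hφ : (pol n a).map φ = X ^ n + C (A : 𝓞 L ⧸ P) * X + 1 := by
    refine pol_map ℚ _ φ n (by omega) _ t1 t2 t3 a (fun i => ?_)
    rw [t4 i i.2]
    obtain ⟨w, hw⟩ := ha i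
    have h1 : a i = ((if (i : ℕ) = 0 then 1 else if (i : ℕ) = 1 then A else 0 : ℕ) : 𝓞 ℚ) + (p : 𝓞 ℚ) * w := by
      rw [← hw]; ring
    rw [h1, map_add, map_mul, map_natCast, map_natCast, hpk, zero_mul, add_zero]
    split_ifs <;> simp
  have hf0k : f0.map (Int.castRingHom (𝓞 L ⧸ P)) = X ^ n + C (A : 𝓞 L ⧸ P) * X + 1 := by
    rw [← hφ]
    show ((pol n a).map _).map _ = _
    rw [Polynomial.map_map]
  set y : 𝓞 L ⧸ P := Ideal.Quotient.mk P x with hy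
  have hev : ∀ g : ℤ[X], Ideal.Quotient.mk P (aeval x g) = (g.map (Int.castRingHom (𝓞 L ⧸ P))).eval y := by
    intro g
    rw [aeval_def, hom_eval₂, eval_map]
    congr 1
  have e0 : y ^ n + (A : 𝓞 L ⧸ P) * y + 1 = 0 := by
    have h1 := hev f0
    rw [hf0k, ← hmin, minpoly.aeval, map_zero] at h1
    simpa using h1.symm
  have e1 : (n : 𝓞 L ⧸ P) * y ^ (n - 1) + (A : 𝓞 L ⧸ P) = 0 := by
    have h1 := hev (derivative f0)
    rw [Ideal.Quotient.eq_zero_iff_mem.2 hderP, ← derivative_map, hf0k] at h1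
    simpa [derivative_X_pow] using h1.symm
  rcases hpA with ⟨h1, h2⟩ | ⟨h1, h2⟩
  · have hA : (A : 𝓞 L ⧸ P) = 0 := by
      obtain ⟨w, rfl⟩ := h2
      push_cast
      rw [hpk, zero_mul]
    rw [hA, zero_mul, add_zero] at e0
    rw [hA, add_zero] at e1
    have h3 : (n : 𝓞 L ⧸ P) * y ^ n = 0 := by
      have h4 : y ^ n = y ^ (n - 1) * y := by
        rw [← pow_succ]
        congr 1
        omega
      rw [h4, ← mul_assoc, e1, zero_mul]
    have h5 : y ^ n = -1 := eq_neg_of_add_eq_zero_left e0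
    rw [h5, mul_neg, mul_one, neg_eq_zero] at h3
    exact hcop n h1 h3
  · have hN : (n : 𝓞 L ⧸ P) = 0 := by
      obtain ⟨w, hw⟩ := h1
      rw [hw]
      push_cast
      rw [hpk, zero_mul]
    rw [hN, zero_mul, zero_add] at e1
    exact hcop A h2 e1

/-- no ramification at the primes up to `n` -/
def P0 (n : ℕ) (L : IntermediateField ℚ (AlgebraicClosure ℚ)) : Prop :=
  ∀ [NumberField L] (p : ℕ), p.Prime → p ≤ n → ¬ (p : ℤ) ∣ NumberField.discr L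

theorem t_DAT (n : ℕ) (hn : 4 ≤ n) : Dat ℚ n (P0 n) := by
  classical
  obtain ⟨q, hq, hqp, a0, h0⟩ := sn ℚ n hn
  let S : Finset ℕ := (Finset.range (n + 1)).filter Nat.Prime
  let N : ℕ := ∏ p ∈ S, p
  let A : ℕ := ∏ p ∈ S.filter (fun p => ¬ p ∣ n), p
  have hS : ∀ p : ℕ, p ∈ S ↔ p ≤ n ∧ p.Prime := by
    intro p
    simp [S, Nat.lt_succ_iff]
  have hN1 : 1 ≤ N := Nat.one_le_iff_ne_zero.2 (Finset.prod_ne_zero_iff.2 fun p hp => ((hS p).1 hp).2.ne_zero)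
  have hcop : Nat.Coprime q N := by
    refine Nat.Coprime.prod_right fun p hp => ?_
    exact ((Nat.Prime.coprime_iff_not_dvd ((hS p).1 hp).2).2 (hqp p ((hS p).1 hp).2 ((hS p).1 hp).1)).symm
  obtain ⟨u, v, huv⟩ := Nat.isCoprime_iff_coprime.2 hcop
  have huv' : (u : 𝓞 ℚ) * (q : 𝓞 ℚ) + (v : 𝓞 ℚ) * (N : 𝓞 ℚ) = 1 := by
    have h1 : ((u * q + v * N : ℤ) : 𝓞 ℚ) = ((1 : ℤ) : 𝓞 ℚ) := by rw [huv]
    push_cast at h1
    exact h1
  let b : Fin (n - 1) → 𝓞 ℚ := fun i =>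
    ((if (i : ℕ) = 0 then 1 else if (i : ℕ) = 1 then A else 0 : ℕ) : 𝓞 ℚ)
  refine ⟨q * N, Nat.mul_pos hq hN1, fun i => a0 i * ((v : 𝓞 ℚ) * (N : 𝓞 ℚ)) + b i * ((u : 𝓞 ℚ) * (q : 𝓞 ℚ)), ?_⟩
  intro a ha
  have ha1 : ∀ i, (q : 𝓞 ℚ) ∣ a i - a0 i := by
    intro i
    obtain ⟨w, hw⟩ := ha i
    refine ⟨(N : 𝓞 ℚ) * w + (b i - a0 i) * u, ?_⟩
    push_cast at hw
    linear_combination hw + a0 i * huv'
  have ha2 : ∀ i, (N : 𝓞 ℚ) ∣ a i - b i := by
    intro i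
    obtain ⟨w, hw⟩ := ha i
    refine ⟨(q : 𝓞 ℚ) * w + (a0 i - b i) * v, ?_⟩
    push_cast at hw
    linear_combination hw + b i * huv'
  obtain ⟨hirr, hsym⟩ := h0 a ha1
  refine ⟨hirr, fun θ hθ => ⟨hsym θ hθ, ?_⟩⟩
  unfold P0
  intro hNF p hp hpn
  have hpS : p ∈ S := (hS p).2 ⟨hpn, hp⟩
  refine @unram n hn A p hp ?_ a (fun i => ?_) hirr θ hθ hNF
  · by_cases hd : p ∣ n
    · right
      refine ⟨hd, fun h => ?_⟩
      rw [Prime.dvd_finset_prod_iff hp.prime] at h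
      obtain ⟨p', hp', hpp⟩ := h
      rw [Finset.mem_filter] at hp'
      have := (Nat.prime_dvd_prime_iff_eq hp ((hS p').1 hp'.1).2).1 hpp
      subst this
      exact hp'.2 hd
    · left
      exact ⟨hd, Finset.dvd_prod_of_mem (fun p => p) (Finset.mem_filter.2 ⟨hpS, hd⟩)⟩
  · have h1 : (p : 𝓞 ℚ) ∣ (N : 𝓞 ℚ) := by
      have h2 : p ∣ N := Finset.dvd_prod_of_mem (fun p => p) hpS
      exact_mod_cast (Nat.cast_dvd_cast (α := 𝓞 ℚ) h2)
    exact h1.trans (ha2 i)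

end Pool.Agent.D0H15.TI
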