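import Pool.Agent.D0H15.TI.Stm

/-!
# Project TI, version over an arbitrary number field `K`

`S_BURN`, `S_COMB`, `S_TAME` are used as they are. The other modules are the relative versions of those in
`Pool.Agent.D0H15.TI.Stm`: copy and adapt the proof.  `rd K E` is the absolute norm of the relative discriminant (or
different) of `E / K`.  It is multiplicative in towers: `rd K M = rd E M * rd K E ^ [M : E]`
(`differentIdeal_eq_differentIdeal_mul_differentIdeal (𝓞 K) (𝓞 E) (𝓞 M)`, `Ideal.absNorm_algebraMap`, exactly as in the proof of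
`NumberField.natAbs_discr_eq_absNorm_differentIdeal_mul_natAbs_discr_pow`), and by that theorem
`(discr E).natAbs = rd K E * (discr K).natAbs ^ [E : K]`, so `rd` is invariant under `K`-isomorphisms
(`NumberField.discr_eq_discr_of_algEquiv` or `..._of_ringEquiv`).
-/

set_option autoImplicit false

open NumberField

namespace Pool.Agent.D0H15.TI

/-- the absolute norm of the relative discriminant of `E / K` -/
noncomputable def rd (K E : Type) [Field K] [NumberField K] [Field E] [NumberField E] [Algebra K E] : ℕ :=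
  Ideal.absNorm (differentIdeal (𝓞 K) (𝓞 E))

open scoped Pointwise in
/-- 4' NRM2.  The `p`-adic valuation of the norm of an ideal `D` of `M`, written as a sum over the group of `M / K`.

PROOF.  `𝔭_j` the primes of `K` over `p`, `f_j` their degrees, `P_j` a prime of `M` over `𝔭_j`.  For a prime `P'` of `M` over `𝔭_j`: `f(P'/p) = f_j f(P_j/𝔭_j)`.
`∑_g v j g = |Stab P_j| ∑_{P' over 𝔭_j} v_{P'}(D)` and `|Stab P_j| = |I_j| f(P_j/𝔭_j)`, so `w_j = f(P_j/𝔭_j) ∑_{P' over 𝔭_j} v_{P'}(D)`. -/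
def S_NRM2 : Prop := ∀ (K M : Type) [Field K] [NumberField K] [Field M] [NumberField M] [Algebra K M] [IsGalois K M]
  (p : ℕ), p.Prime → ∃ (r : ℕ) (f : Fin r → ℕ) (P : Fin r → Ideal (𝓞 M)),
  (∀ j, (P j).IsMaximal ∧ (p : 𝓞 M) ∈ P j) ∧
  ∀ D : Ideal (𝓞 M), D ≠ ⊥ → ∀ v : Fin r → (M ≃ₐ[K] M) → ℕ,
  (∀ (j : Fin r) (g : M ≃ₐ[K] M), (g • P j) ^ (v j g) ∣ D ∧ ¬ (g • P j) ^ (v j g + 1) ∣ D) →
  ∃ w : Fin r → ℕ, (∀ j, Nat.card ((P j).inertia (M ≃ₐ[K] M)) * w j = ∑ g : M ≃ₐ[K] M, v j g) ∧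
    padicValNat p (Ideal.absNorm D) = ∑ j, f j * w j

/-- 5' IND2 (prove `S_BURN → S_TAME → S_NRM2 → S_IND2`).

PROOF.  As IND, with `D = differentIdeal (𝓞 E) (𝓞 M)`: `|I_j| w_j(E) + |G| = |I_j| |H| orb (I_j) H`, and for `D = differentIdeal (𝓞 K) (𝓞 M)` (TAME for `K ⊂ M`: `v = |I_j| - 1`)
`|I_j| w_j(K) + |G| = |I_j| |G|`; `|H| v_p(rd K E) = ∑ f_j (w_j(K) - w_j(E)) = ∑ f_j (|G| - |H| orb_j)`. -/
def S_IND2 : Prop := ∀ (K M : Type) [Field K] [NumberField K] [Field M] [NumberField M] [Algebra K M] [IsGalois K M]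
  (p : ℕ), p.Prime → ¬ p ∣ Module.finrank K M → ∃ (r : ℕ) (f : Fin r → ℕ) (I : Fin r → Subgroup (M ≃ₐ[K] M)),
  ∀ E : IntermediateField K M,
    padicValNat p (rd K E) + ∑ j, f j * orb (I j) E.fixingSubgroup = (∑ j, f j) * Module.finrank K E

/-- 6' UNR2. -/
def S_UNR2 : Prop := ∀ (K M : Type) [Field K] [NumberField K] [Field M] [NumberField M] [Algebra K M] [IsGalois K M]
  (L F : IntermediateField K M), L.fixingSubgroup.normalCore = ⊥ → ∀ p : ℕ, p.Prime →
  ¬ p ∣ rd K L → ¬ p ∣ rd K F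

open scoped Classical in
/-- 7' DISC2 (prove `S_COMB → S_IND2 → S_UNR2 → S_DISC2`; COMB for every `I j`, weights `f j`). -/
def S_DISC2 : Prop := ∀ (K M : Type) [Field K] [NumberField K] [Field M] [NumberField M] [Algebra K M] [IsGalois K M]
  (L F : IntermediateField K M) (t : ℕ),
  L.fixingSubgroup.normalCore = ⊥ →
  (∀ a b : (M ≃ₐ[K] M) ⧸ L.fixingSubgroup, ∃ g : M ≃ₐ[K] M, ∀ x, g • x = Equiv.swap a b x) →
  (∀ g : M ≃ₐ[K] M, (∃ a b : (M ≃ₐ[K] M) ⧸ L.fixingSubgroup, a ≠ b ∧ ∀ x, g • x = Equiv.swap a b x) →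
    Nat.card {z : (M ≃ₐ[K] M) ⧸ F.fixingSubgroup // g • z ≠ z} ≤ 2 * t) →
  (∀ p : ℕ, p.Prime → p ≤ Module.finrank K L → ¬ p ∣ rd K L) →
  rd K F ≤ rd K L ^ t

/-- The Galois group acts on the set of embeddings of `L` as the full symmetric group. -/
def SymK {K : Type} [Field K] (L : IntermediateField K (AlgebraicClosure K)) : Prop :=
  ∀ τ : Equiv.Perm (L →ₐ[K] AlgebraicClosure K), ∃ σ : AlgebraicClosure K ≃ₐ[K] AlgebraicClosure K,
    ∀ φ : L →ₐ[K] AlgebraicClosure K, τ φ = σ.toAlgHom.comp φ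

/-- The Galois group (of the Galois closure) of `F / K` is `S_n`, and it acts on the embeddings of `F` as on the cosets of
the subgroup `H`. -/
def TypK {K : Type} [Field K] {n : ℕ} (H : Subgroup (Equiv.Perm (Fin n)))
    (F : IntermediateField K (AlgebraicClosure K)) : Prop :=
  ∃ (e : (F →ₐ[K] AlgebraicClosure K) ≃ (Equiv.Perm (Fin n) ⧸ H))
    (ρ : (AlgebraicClosure K ≃ₐ[K] AlgebraicClosure K) →* Equiv.Perm (Fin n)),
    Function.Surjective ρ ∧ ∀ (σ : AlgebraicClosure K ≃ₐ[K] AlgebraicClosure K)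
      (φ : F →ₐ[K] AlgebraicClosure K), e (σ.toAlgHom.comp φ) = ρ σ • e φ

/-- 8' FLD2 (prove `S_DISC2 → S_FLD2`).  `M = normalClosure K L (AlgebraicClosure K)` is a number field by `NumberField.of_module_finite K M`. -/
def S_FLD2 : Prop := ∀ (K : Type) [Field K] [NumberField K] (n : ℕ) (H : Subgroup (Equiv.Perm (Fin n))) (t : ℕ)
  (L : IntermediateField K (AlgebraicClosure K)) [NumberField L],
  H.normalCore = ⊥ →
  (∀ s : Equiv.Perm (Fin n), s.IsSwap → Nat.card {z : Equiv.Perm (Fin n) ⧸ H // s • z ≠ z} ≤ 2 * t) →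
  Module.finrank K L = n → 1 ≤ n → SymK L →
  (∀ p : ℕ, p.Prime → p ≤ n → ¬ p ∣ rd K L) →
  ∃ F : IntermediateField K (AlgebraicClosure K), TypK H F ∧
    IntermediateField.normalClosure K F (AlgebraicClosure K) = IntermediateField.normalClosure K L (AlgebraicClosure K) ∧
    ∃ _ : NumberField F, rd K F ≤ rd K L ^ t

/-- 9' SUB2. -/
def S_SUB2 : Prop := ∀ (K : Type) [Field K] [NumberField K] (n : ℕ), 1 ≤ n → ∃ C : ℕ,
  ∀ N : IntermediateField K (AlgebraicClosure K),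
  {L : IntermediateField K (AlgebraicClosure K) | Module.finrank K L = n ∧
    IntermediateField.normalClosure K L (AlgebraicClosure K) = N}.Finite ∧
  {L : IntermediateField K (AlgebraicClosure K) | Module.finrank K L = n ∧
    IntermediateField.normalClosure K L (AlgebraicClosure K) = N}.ncard ≤ C

end Pool.Agent.D0H15.TI
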