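import Pool.Agent.D0H15.TI.Dat
import Pool.Agent.D0H15.TI.Stm2

/-!
# Project TI: a congruence condition which forces `S_n` and no ramification at the primes `p ≤ n`, over `K`
-/

set_option autoImplicit false
set_option linter.all false

open Polynomial NumberField

namespace Pool.Agent.D0H15.TI

open Pool.Agent.D0H15.SK (pol polK pol_monic pol_natDegree pol_coeff pol_coeff_pred minpoly_root)
open Pool.Agent.D0H42.SFK
open Pool.Agent.D0H64.WS (Dat)

/-- no ramification at `p` -/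
theorem unramK {K : Type} [Field K] [NumberField K] (n : ℕ) (hn : 4 ≤ n) (A p : ℕ) (hp : p.Prime)
    (hpA : (¬ p ∣ n ∧ p ∣ A) ∨ (p ∣ n ∧ ¬ p ∣ A)) (a : Fin (n - 1) → 𝓞 K)
    (ha : ∀ i, (p : 𝓞 K) ∣ a i - ((if (i : ℕ) = 0 then 1 else if (i : ℕ) = 1 then A else 0 : ℕ) : 𝓞 K))
    (hirr : Irreducible (polK n a)) (θ : AlgebraicClosure K) (hθ : aeval θ (polK n a) = 0)
    [NumberField (IntermediateField.adjoin K {θ})] :
    ¬ p ∣ rd K (IntermediateField.adjoin K {θ}) := by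
  set L := IntermediateField.adjoin K {θ} with hL
  intro hdd
  have hdd' : (p : ℤ) ∣ ((Ideal.absNorm (differentIdeal (𝓞 K) (𝓞 L)) : ℕ) : ℤ) := by
    exact_mod_cast hdd
  obtain ⟨P, hPm, hPu, hdvd⟩ := Ideal.exists_isMaximal_dvd_of_dvd_absNorm (Nat.prime_iff_prime_int.1 hp) _ hdd'
  have hP : P.IsPrime := hPm.isPrime
  have hpP : ((p : ℤ) : 𝓞 L) ∈ P := by
    have h1 : (p : ℤ) ∈ P.under ℤ := by
      rw [hPu]
      exact Ideal.mem_span_singleton_self _
    rw [Ideal.under_def, Ideal.mem_comap] at h1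
    simpa using h1
  have hmon := pol_monic n (by omega) a
  have hθL : θ ∈ L := IntermediateField.mem_adjoin_simple_self K θ
  have hintO : IsIntegral (𝓞 K) θ := by
    refine ⟨pol n a, hmon, ?_⟩
    have h1 : aeval θ ((pol n a).map (algebraMap (𝓞 K) K)) = 0 := hθ
    rw [aeval_map_algebraMap] at h1
    exact h1
  have hint : IsIntegral ℤ θ := isIntegral_trans (R := ℤ) (A := 𝓞 K) θ hintO
  have hint' : IsIntegral ℤ (⟨θ, hθL⟩ : L) := by
    rw [← isIntegral_algebraMap_iff (B := AlgebraicClosure K) (algebraMap L (AlgebraicClosure K)).injective]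
    exact hint
  let x : 𝓞 L := ⟨⟨θ, hθL⟩, hint'⟩
  have hxθ : algebraMap (𝓞 L) L x = ⟨θ, hθL⟩ := rfl
  have hintQ : IsIntegral K θ := hintO.tower_top
  have hadj : Algebra.adjoin K {algebraMap (𝓞 L) L x} = ⊤ := by
    rw [hxθ]
    exact (IntermediateField.adjoin.powerBasis hintQ).adjoin_gen_eq_top
  have hminQ : minpoly K (algebraMap (𝓞 L) L x) = polK n a := by
    rw [hxθ]
    have h1 : minpoly K (⟨θ, hθL⟩ : L) = minpoly K θ := by
      rw [← minpoly.algebraMap_eq (algebraMap L (AlgebraicClosure K)).injective (⟨θ, hθL⟩ : L)]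
      rfl
    rw [h1]
    exact (minpoly.eq_of_irreducible_of_monic hirr hθ (Pool.Agent.D0H15.SK.polK_monic n (by omega) a)).symm
  have hintx : IsIntegral (𝓞 K) x := (RingOfIntegers.isIntegral x).tower_top
  have hmin : minpoly (𝓞 K) x = pol n a := by
    have h1 := minpoly.isIntegrallyClosed_eq_field_fractions K L hintx
    rw [hminQ] at h1
    exact (Polynomial.map_injective _ (FaithfulSMul.algebraMap_injective (𝓞 K) K) h1).symm
  have hder := aeval_derivative_mem_differentIdeal (𝓞 K) K L x hadj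
  rw [hmin] at hder
  have hderP : aeval x (derivative (pol n a)) ∈ P := (Ideal.dvd_iff_le.1 hdvd) hder
  have hP1 : P ≠ ⊤ := hP.ne_top
  have hnt : Nontrivial (𝓞 L ⧸ P) := Ideal.Quotient.nontrivial_iff.2 hP1
  have hpk : ((p : ℕ) : 𝓞 L ⧸ P) = 0 := by
    have h1 : Ideal.Quotient.mk P ((p : ℤ) : 𝓞 L) = 0 := Ideal.Quotient.eq_zero_iff_mem.2 hpP
    rw [map_intCast] at h1
    exact_mod_cast h1
  have hcop : ∀ m : ℕ, ¬ p ∣ m → ((m : ℕ) : 𝓞 L ⧸ P) ≠ 0 := by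
    intro m hm h0
    have h1 : IsCoprime (p : ℤ) (m : ℤ) := by
      rw [Nat.isCoprime_iff_coprime]
      exact (Nat.Prime.coprime_iff_not_dvd hp).2 hm
    obtain ⟨u, v, huv⟩ := h1
    have h2 : ((u * p + v * m : ℤ) : 𝓞 L ⧸ P) = ((1 : ℤ) : 𝓞 L ⧸ P) := by rw [huv]
    push_cast at h2
    rw [hpk, h0, mul_zero, mul_zero, add_zero] at h2
    exact one_ne_zero h2.symm
  let φ : 𝓞 K →+* 𝓞 L ⧸ P := (Ideal.Quotient.mk P).comp (algebraMap (𝓞 K) (𝓞 L))
  obtain ⟨t1, t2, t3, t4⟩ := trin (k := 𝓞 L ⧸ P) n hn (A : 𝓞 L ⧸ P)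
  have hφ : (pol n a).map φ = X ^ n + C (A : 𝓞 L ⧸ P) * X + 1 := by
    refine pol_map K _ φ n (by omega) _ t1 t2 t3 a (fun i => ?_)
    rw [t4 i i.2]
    obtain ⟨w, hw⟩ := ha i
    have h1 : a i = ((if (i : ℕ) = 0 then 1 else if (i : ℕ) = 1 then A else 0 : ℕ) : 𝓞 K) + (p : 𝓞 K) * w := by
      rw [← hw]; ring
    rw [h1, map_add, map_mul, map_natCast, map_natCast, hpk, zero_mul, add_zero]
    split_ifs <;> simp
  set y : 𝓞 L ⧸ P := Ideal.Quotient.mk P x with hy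
  have hev : ∀ g : (𝓞 K)[X], Ideal.Quotient.mk P (aeval x g) = (g.map φ).eval y := by
    intro g
    rw [aeval_def, hom_eval₂, eval_map]
  have e0 : y ^ n + (A : 𝓞 L ⧸ P) * y + 1 = 0 := by
    have h1 := hev (pol n a)
    rw [hφ, ← hmin, minpoly.aeval, map_zero] at h1
    simpa using h1.symm
  have e1 : (n : 𝓞 L ⧸ P) * y ^ (n - 1) + (A : 𝓞 L ⧸ P) = 0 := by
    have h1 := hev (derivative (pol n a))
    rw [Ideal.Quotient.eq_zero_iff_mem.2 hderP, ← derivative_map, hφ] at h1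
    simpa [derivative_X_pow] using h1.symm
  rcases hpA with ⟨h1, h2⟩ | ⟨h1, h2⟩
  · have hA : (A : 𝓞 L ⧸ P) = 0 := by
      obtain ⟨w, rfl⟩ := h2
      push_cast
      rw [hpk, zero_mul]
    rw [hA, zero_mul, add_zero] at e0
    rw [hA, add_zero] at e1
    have h3 : (n : 𝓞 L ⧸ P) * y ^ n = 0 := by
      have h4 : y ^ n = y ^ (n - 1) * y := by
        rw [← pow_succ]
        congr 1
        omega
      rw [h4, ← mul_assoc, e1, zero_mul]
    have h5 : y ^ n = -1 := eq_neg_of_add_eq_zero_left e0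
    rw [h5, mul_neg, mul_one, neg_eq_zero] at h3
    exact hcop n h1 h3
  · have hN : (n : 𝓞 L ⧸ P) = 0 := by
      obtain ⟨w, hw⟩ := h1
      rw [hw]
      push_cast
      rw [hpk, zero_mul]
    rw [hN, zero_mul, zero_add] at e1
    exact hcop A h2 e1

/-- no ramification at the primes up to `n` -/
def P0K (K : Type) [Field K] [NumberField K] (n : ℕ) (L : IntermediateField K (AlgebraicClosure K)) : Prop :=
  ∀ [NumberField L] (p : ℕ), p.Prime → p ≤ n → ¬ p ∣ rd K L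

theorem t_DAT2 (K : Type) [Field K] [NumberField K] (n : ℕ) (hn : 4 ≤ n) : Dat K n (P0K K n) := by
  classical
  obtain ⟨q, hq, hqp, a0, h0⟩ := sn K n hn
  let S : Finset ℕ := (Finset.range (n + 1)).filter Nat.Prime
  let N : ℕ := ∏ p ∈ S, p
  let A : ℕ := ∏ p ∈ S.filter (fun p => ¬ p ∣ n), p
  have hS : ∀ p : ℕ, p ∈ S ↔ p ≤ n ∧ p.Prime := by
    intro p
    simp [S, Nat.lt_succ_iff]
  have hN1 : 1 ≤ N := Nat.one_le_iff_ne_zero.2 (Finset.prod_ne_zero_iff.2 fun p hp => ((hS p).1 hp).2.ne_zero)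
  have hcop : Nat.Coprime q N := by
    refine Nat.Coprime.prod_right fun p hp => ?_
    exact ((Nat.Prime.coprime_iff_not_dvd ((hS p).1 hp).2).2 (hqp p ((hS p).1 hp).2 ((hS p).1 hp).1)).symm
  obtain ⟨u, v, huv⟩ := Nat.isCoprime_iff_coprime.2 hcop
  have huv' : (u : 𝓞 K) * (q : 𝓞 K) + (v : 𝓞 K) * (N : 𝓞 K) = 1 := by
    have h1 : ((u * q + v * N : ℤ) : 𝓞 K) = ((1 : ℤ) : 𝓞 K) := by rw [huv]
    push_cast at h1
    exact h1
  let b : Fin (n - 1) → 𝓞 K := fun i =>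
    ((if (i : ℕ) = 0 then 1 else if (i : ℕ) = 1 then A else 0 : ℕ) : 𝓞 K)
  refine ⟨q * N, Nat.mul_pos hq hN1, fun i => a0 i * ((v : 𝓞 K) * (N : 𝓞 K)) + b i * ((u : 𝓞 K) * (q : 𝓞 K)), ?_⟩
  intro a ha
  have ha1 : ∀ i, (q : 𝓞 K) ∣ a i - a0 i := by
    intro i
    obtain ⟨w, hw⟩ := ha i
    refine ⟨(N : 𝓞 K) * w + (b i - a0 i) * u, ?_⟩
    push_cast at hw
    linear_combination hw + a0 i * huv'
  have ha2 : ∀ i, (N : 𝓞 K) ∣ a i - b i := by
    intro i
    obtain ⟨w, hw⟩ := ha i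
    refine ⟨(q : 𝓞 K) * w + (a0 i - b i) * v, ?_⟩
    push_cast at hw
    linear_combination hw + b i * huv'
  obtain ⟨hirr, hsym⟩ := h0 a ha1
  refine ⟨hirr, fun θ hθ => ⟨hsym θ hθ, ?_⟩⟩
  unfold P0K
  intro hNF p hp hpn
  have hpS : p ∈ S := (hS p).2 ⟨hpn, hp⟩
  refine @unramK K _ _ n hn A p hp ?_ a (fun i => ?_) hirr θ hθ hNF
  · by_cases hd : p ∣ n
    · right
      refine ⟨hd, fun h => ?_⟩
      rw [Prime.dvd_finset_prod_iff hp.prime] at h
      obtain ⟨p', hp', hpp⟩ := h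
      rw [Finset.mem_filter] at hp'
      have := (Nat.prime_dvd_prime_iff_eq hp ((hS p').1 hp'.1).2).1 hpp
      subst this
      exact hp'.2 hd
    · left
      exact ⟨hd, Finset.dvd_prod_of_mem (fun p => p) (Finset.mem_filter.2 ⟨hpS, hd⟩)⟩
  · have h1 : (p : 𝓞 K) ∣ (N : 𝓞 K) := by
      have h2 : p ∣ N := Finset.dvd_prod_of_mem (fun p => p) hpS
      exact_mod_cast (Nat.cast_dvd_cast (α := 𝓞 K) h2)
    exact h1.trans (ha2 i)

end Pool.Agent.D0H15.TI
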