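import Pool.Agent.D0H15.TI.Stm
import Pool.Agent.D0H15.TI.Dat
import Pool.Agent.D0H64.WS.Main

/-!
# Project TI: assembly
-/

set_option autoImplicit false
set_option linter.all false

open Polynomial NumberField

namespace Pool.Agent.D0H15.TI

/-- The number fields of the type of `H` with `|disc| ≤ X`. -/
def Fields {n : ℕ} (H : Subgroup (Equiv.Perm (Fin n))) (X : ℝ) : Set (IntermediateField ℚ Qb) :=
  {F | Typ H F ∧ ∃ _ : NumberField F, ((|NumberField.discr F| : ℤ) : ℝ) ≤ X}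

theorem fields_finite {n : ℕ} (H : Subgroup (Equiv.Perm (Fin n))) (X : ℝ) : (Fields H X).Finite := by
  have h1 := NumberField.finite_of_discr_bdd Qb ⌊X⌋₊
  refine (h1.image (fun F => F.1)).subset ?_
  rintro F ⟨-, hNF, hF⟩
  refine ⟨⟨F, inferInstance⟩, ?_, rfl⟩
  show |NumberField.discr F| ≤ (⌊X⌋₊ : ℤ)
  have h0 : (0 : ℝ) ≤ X := le_trans (by exact_mod_cast abs_nonneg _) hF
  have h2 : (|NumberField.discr F|).toNat ≤ ⌊X⌋₊ := by
    refine Nat.le_floor ?_
    refine le_trans (le_of_eq ?_) hF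
    have h3 : (((|NumberField.discr F|).toNat : ℤ)) = |NumberField.discr F| := Int.toNat_of_nonneg (abs_nonneg _)
    exact_mod_cast h3
  have h4 : |NumberField.discr F| = ((|NumberField.discr F|).toNat : ℤ) := (Int.toNat_of_nonneg (abs_nonneg _)).symm
  rw [h4]
  exact_mod_cast h2

/-- the main theorem -/
theorem final (hFLD : S_FLD) (hSUB : S_SUB) : ∃ n₀ : ℕ, ∀ n : ℕ, n₀ ≤ n →
    ∀ H : Subgroup (Equiv.Perm (Fin n)), H.normalCore = ⊥ → ∀ t : ℕ,
    (∀ s : Equiv.Perm (Fin n), s.IsSwap → Nat.card {z : Equiv.Perm (Fin n) ⧸ H // s • z ≠ z} ≤ 2 * t) →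
    ∃ c : ℝ, 0 < c ∧ ∃ X₀ : ℝ, ∀ X : ℝ, X₀ ≤ X → (Fields H X).Finite ∧
      c * X ^ (((1 : ℝ) / 2 + 4 / (3 * n) - 16 * (Real.log n) ^ 2 / (n : ℝ) ^ 2) / t) ≤
        ((Fields H X).ncard : ℝ) := by
  obtain ⟨n₀, h⟩ := Pool.Agent.D0H64.WS.expo'
  refine ⟨max n₀ 4, fun n hn H hH t ht => ?_⟩
  have hn0 : n₀ ≤ n := le_trans (le_max_left _ _) hn
  have hn4 : 4 ≤ n := le_trans (le_max_right _ _) hn
  have ht1 : 1 ≤ t := by
    by_contra hc
    have ht0 : t = 0 := by omega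
    subst ht0
    have hfix : ∀ s : Equiv.Perm (Fin n), s.IsSwap → ∀ z : Equiv.Perm (Fin n) ⧸ H, s • z = z := by
      intro s hs z
      by_contra hz
      have h1 := ht s hs
      rw [mul_zero, Nat.le_zero] at h1
      have : Finite {z : Equiv.Perm (Fin n) ⧸ H // s • z ≠ z} := inferInstance
      rw [Nat.card_eq_zero] at h1
      rcases h1 with h1 | h1
      · exact h1.false ⟨z, hz⟩
      · exact (not_finite_iff_infinite.2 h1) this
    let s : Equiv.Perm (Fin n) := Equiv.swap ⟨0, by omega⟩ ⟨1, by omega⟩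
    have hs : s.IsSwap := ⟨_, _, by simp [Fin.ext_iff], rfl⟩
    have hmem : s ∈ H.normalCore := by
      intro g
      have h1 := hfix s hs (QuotientGroup.mk g⁻¹)
      have h2 : (QuotientGroup.mk (s * g⁻¹) : Equiv.Perm (Fin n) ⧸ H) = QuotientGroup.mk g⁻¹ := h1
      rw [eq_comm, QuotientGroup.eq] at h2
      simpa [mul_assoc] using h2
    rw [hH, Subgroup.mem_bot] at hmem
    have h3 : (s ⟨0, by omega⟩ : Fin n) = ⟨0, by omega⟩ := by rw [hmem]; rfl
    simp [s, Fin.ext_iff] at h3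
  obtain ⟨Y₀, hY⟩ := h n hn0 ℚ (P0 n) (t_DAT n hn4)
  obtain ⟨C, hC⟩ := hSUB n (by omega)
  set e : ℝ := (1 : ℝ) / 2 + 4 / (3 * n) - 16 * (Real.log n) ^ 2 / (n : ℝ) ^ 2 with he
  refine ⟨1 / (C + 1), by positivity, max 1 ((max Y₀ 1) ^ t), fun X hX => ⟨fields_finite H X, ?_⟩⟩
  have hX1 : 1 ≤ X := le_trans (le_max_left _ _) hX
  have htR : (0 : ℝ) < t := by exact_mod_cast ht1
  set Y : ℝ := X ^ ((1 : ℝ) / t) with hYdef
  have hY0 : 0 ≤ Y := Real.rpow_nonneg (by linarith) _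
  have hYt : Y ^ t = X := by
    rw [hYdef, ← Real.rpow_natCast, ← Real.rpow_mul (by linarith), one_div_mul_cancel htR.ne', Real.rpow_one]
  have hYY : Y₀ ≤ Y := by
    by_contra hc
    rw [not_le] at hc
    have h1 : Y < max Y₀ 1 := lt_of_lt_of_le hc (le_max_left _ _)
    have h2 : Y ^ t < (max Y₀ 1) ^ t := pow_lt_pow_left₀ h1 hY0 (by omega)
    rw [hYt] at h2
    exact absurd (le_trans (le_max_right _ _) hX) (not_le.2 h2)
  obtain ⟨hfin, hle⟩ := hY Y hYY
  have hYe : Y ^ e = X ^ (e / t) := by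
    rw [hYdef, ← Real.rpow_mul (by linarith)]
    congr 1
    ring
  -- the map
  have hex : ∀ L ∈ Pool.Agent.D0H64.WS.FldP ℚ n (P0 n) Y, ∃ F ∈ Fields H X,
      IntermediateField.normalClosure ℚ F Qb = IntermediateField.normalClosure ℚ L Qb ∧
      Module.finrank ℚ L = n := by
    rintro L ⟨h1, ⟨hNF, h2⟩, h3, h4⟩
    obtain ⟨F, hF1, hF2, hNF', hF3⟩ := @hFLD n H t L hNF hH ht h1 h3 (fun p hp hpn => @h4 hNF p hp hpn)
    refine ⟨F, ⟨hF1, hNF', ?_⟩, hF2, h1⟩
    have h5 : (((NumberField.discr F).natAbs : ℕ) : ℝ) ≤ (((@NumberField.discr L _ hNF).natAbs : ℕ) : ℝ) ^ t := by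
      exact_mod_cast hF3
    have h6 : ((|NumberField.discr F| : ℤ) : ℝ) = (((NumberField.discr F).natAbs : ℕ) : ℝ) := by
      rw [Int.abs_eq_natAbs]
      simp
    have h7 : ((|@NumberField.discr L _ hNF| : ℤ) : ℝ) = (((@NumberField.discr L _ hNF).natAbs : ℕ) : ℝ) := by
      rw [Int.abs_eq_natAbs]
      simp
    rw [h6, ← hYt]
    refine h5.trans (pow_le_pow_left₀ (Nat.cast_nonneg _) ?_ t)
    rw [← h7]
    exact h2
  choose! Φ hΦ1 hΦ2 hΦ3 using hex
  have hcard : (Pool.Agent.D0H64.WS.FldP ℚ n (P0 n) Y).ncard ≤ C * (Fields H X).ncard := by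
    classical
    have hBf := fields_finite H X
    have e1 : (Pool.Agent.D0H64.WS.FldP ℚ n (P0 n) Y).ncard = hfin.toFinset.card :=
      Set.ncard_eq_toFinset_card _ hfin
    have e2 : (Fields H X).ncard = hBf.toFinset.card := Set.ncard_eq_toFinset_card _ hBf
    rw [e1, e2]
    refine Finset.card_le_mul_card_image_of_maps_to (f := Φ) (fun L hL => ?_) C (fun F hF => ?_)
    · rw [Set.Finite.mem_toFinset] at hL ⊢
      exact hΦ1 L hL
    · obtain ⟨hf, hc⟩ := hC (IntermediateField.normalClosure ℚ F Qb)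
      rw [Set.ncard_eq_toFinset_card _ hf] at hc
      refine le_trans (Finset.card_le_card ?_) hc
      intro L hL
      rw [Finset.mem_filter, Set.Finite.mem_toFinset] at hL
      have h10 := hΦ2 L hL.1
      rw [hL.2] at h10
      exact hf.mem_toFinset.2 ⟨hΦ3 L hL.1, h10.symm⟩
  have h9 : Y ^ e ≤ (C : ℝ) * ((Fields H X).ncard : ℝ) := by
    refine hle.trans ?_
    exact_mod_cast hcard
  rw [← hYe, one_div, inv_mul_le_iff₀ (by positivity)]
  refine h9.trans (mul_le_mul_of_nonneg_right (by linarith) (Nat.cast_nonneg _))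

end Pool.Agent.D0H15.TI
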