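import Pool.Agent.D0H15.TI.Stm2
import Pool.Agent.D0H15.TI.Dat2
import Pool.Agent.D0H64.WS.Main
import Pool.Agent.Results.MP_bf81c2_nt.LinnikExponent

/-!
# Project TI: assembly over an arbitrary number field
-/

set_option autoImplicit false
set_option linter.all false

open Polynomial NumberField

namespace Pool.Agent.D0H15.TI

open Pool.Agent.D0H15.SK (Flds)

/-- The extensions `F` of `K` of the type of `H` with `|Δ_F| ≤ X`. -/
def FieldsK (K : Type) [Field K] [NumberField K] {n : ℕ} (H : Subgroup (Equiv.Perm (Fin n))) (X : ℝ) :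
    Set (IntermediateField K (AlgebraicClosure K)) :=
  {F | TypK H F ∧ ∃ _ : NumberField F, (rd K F : ℝ) ≤ X}

theorem discr_rd (K E : Type) [Field K] [NumberField K] [Field E] [NumberField E] [Algebra K E] :
    (NumberField.discr E).natAbs = rd K E * (NumberField.discr K).natAbs ^ Module.finrank K E :=
  NumberField.natAbs_discr_eq_absNorm_differentIdeal_mul_natAbs_discr_pow K (𝓞 K) E (𝓞 E)

theorem typ_finrank {K : Type} [Field K] [NumberField K] {n : ℕ} {H : Subgroup (Equiv.Perm (Fin n))}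
    {F : IntermediateField K (AlgebraicClosure K)} (h : TypK H F) (hNF : NumberField F) :
    Module.finrank K F = Nat.card (Equiv.Perm (Fin n) ⧸ H) := by
  obtain ⟨e, -⟩ := h
  have : FiniteDimensional K F := Module.Finite.of_restrictScalars_finite ℚ K F
  rw [← Nat.card_congr e, Nat.card_eq_fintype_card]
  exact (AlgHom.card K F (AlgebraicClosure K)).symm

theorem fieldsK_finite (K : Type) [Field K] [NumberField K] {n : ℕ} (H : Subgroup (Equiv.Perm (Fin n)))
    (hm : 2 ≤ Nat.card (Equiv.Perm (Fin n) ⧸ H)) (X : ℝ) : (FieldsK K H X).Finite := by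
  obtain ⟨e, -, he⟩ := Pool.Agent.Results.MP_bf81c2_nt.LinnikExponent.result
  set m := Nat.card (Equiv.Perm (Fin n) ⧸ H) with hmdef
  obtain ⟨C, hC⟩ := he m hm (Module.finrank ℚ K)
  set Y : ℝ := max 1 (X * ((NumberField.discr K).natAbs : ℝ) ^ m) with hY
  have hfin : (Flds K m Y).Finite := (hC K rfl Y (le_max_left _ _)).1
  refine hfin.subset ?_
  rintro F ⟨hF, hNF, hle⟩
  have hr := typ_finrank hF hNF
  refine ⟨hr, hNF, ?_⟩
  have h1 : ((|NumberField.discr F| : ℤ) : ℝ) = (((NumberField.discr F).natAbs : ℕ) : ℝ) := by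
    rw [Int.abs_eq_natAbs]
    simp
  rw [h1, discr_rd K F, hr, ← hmdef]
  push_cast
  refine le_trans ?_ (le_max_right _ _)
  exact mul_le_mul_of_nonneg_right hle (by positivity)

/-- the main theorem -/
theorem final2 (hFLD : S_FLD2) (hSUB : S_SUB2) : ∃ n₀ : ℕ, ∀ n : ℕ, n₀ ≤ n →
    ∀ H : Subgroup (Equiv.Perm (Fin n)), H.normalCore = ⊥ → ∀ t : ℕ,
    (∀ s : Equiv.Perm (Fin n), s.IsSwap → Nat.card {z : Equiv.Perm (Fin n) ⧸ H // s • z ≠ z} ≤ 2 * t) →
    ∀ (K : Type) [Field K] [NumberField K],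
    ∃ c : ℝ, 0 < c ∧ ∃ X₀ : ℝ, ∀ X : ℝ, X₀ ≤ X → (FieldsK K H X).Finite ∧
      c * X ^ (((1 : ℝ) / 2 + 4 / (3 * n) - 16 * (Real.log n) ^ 2 / (n : ℝ) ^ 2) / t) ≤
        ((FieldsK K H X).ncard : ℝ) := by
  obtain ⟨n₀, h⟩ := Pool.Agent.D0H64.WS.expo'
  refine ⟨max n₀ 4, fun n hn H hH t ht K _ _ => ?_⟩
  have hn0 : n₀ ≤ n := le_trans (le_max_left _ _) hn
  have hn4 : 4 ≤ n := le_trans (le_max_right _ _) hn
  let s : Equiv.Perm (Fin n) := Equiv.swap ⟨0, by omega⟩ ⟨1, by omega⟩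
  have hs : s.IsSwap := ⟨_, _, by simp [Fin.ext_iff], rfl⟩
  have hs1 : s ≠ 1 := by
    intro hmem
    have h3 : (s ⟨0, by omega⟩ : Fin n) = ⟨0, by omega⟩ := by rw [hmem]; rfl
    simp [s, Fin.ext_iff] at h3
  have hmv : ∃ z : Equiv.Perm (Fin n) ⧸ H, s • z ≠ z := by
    by_contra hc
    have hfix : ∀ z : Equiv.Perm (Fin n) ⧸ H, s • z = z := fun z => by
      by_contra hz
      exact hc ⟨z, hz⟩
    have hmem : s ∈ H.normalCore := by
      intro g
      have h1 := hfix (QuotientGroup.mk g⁻¹)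
      have h2 : (QuotientGroup.mk (s * g⁻¹) : Equiv.Perm (Fin n) ⧸ H) = QuotientGroup.mk g⁻¹ := h1
      rw [eq_comm, QuotientGroup.eq] at h2
      simpa [mul_assoc] using h2
    rw [hH, Subgroup.mem_bot] at hmem
    exact hs1 hmem
  obtain ⟨z0, hz0⟩ := hmv
  have hm2 : 2 ≤ Nat.card (Equiv.Perm (Fin n) ⧸ H) := by
    exact Finite.one_lt_card_iff_nontrivial.2 ⟨_, _, hz0⟩
  have ht1 : 1 ≤ t := by
    by_contra hc
    have ht0 : t = 0 := by omega
    subst ht0
    have h1 := ht s hs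
    rw [mul_zero, Nat.le_zero] at h1
    have : Finite {z : Equiv.Perm (Fin n) ⧸ H // s • z ≠ z} := inferInstance
    rw [Nat.card_eq_zero] at h1
    rcases h1 with h1 | h1
    · exact h1.false ⟨z0, hz0⟩
    · exact (not_finite_iff_infinite.2 h1) this
  obtain ⟨Y₀, hY⟩ := h n hn0 K (P0K K n) (t_DAT2 K n hn4)
  obtain ⟨C, hC⟩ := hSUB K n (by omega)
  set e : ℝ := (1 : ℝ) / 2 + 4 / (3 * n) - 16 * (Real.log n) ^ 2 / (n : ℝ) ^ 2 with he
  refine ⟨1 / (C + 1), by positivity, max 1 ((max Y₀ 1) ^ t), fun X hX => ⟨fieldsK_finite K H hm2 X, ?_⟩⟩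
  have hX1 : 1 ≤ X := le_trans (le_max_left _ _) hX
  have htR : (0 : ℝ) < t := by exact_mod_cast ht1
  set Y : ℝ := X ^ ((1 : ℝ) / t) with hYdef
  have hY0 : 0 ≤ Y := Real.rpow_nonneg (by linarith) _
  have hYt : Y ^ t = X := by
    rw [hYdef, ← Real.rpow_natCast, ← Real.rpow_mul (by linarith), one_div_mul_cancel htR.ne', Real.rpow_one]
  have hYY : Y₀ ≤ Y := by
    by_contra hc
    rw [not_le] at hc
    have h1 : Y < max Y₀ 1 := lt_of_lt_of_le hc (le_max_left _ _)
    have h2 : Y ^ t < (max Y₀ 1) ^ t := pow_lt_pow_left₀ h1 hY0 (by omega)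
    rw [hYt] at h2
    exact absurd (le_trans (le_max_right _ _) hX) (not_le.2 h2)
  obtain ⟨hfin, hle⟩ := hY Y hYY
  have hYe : Y ^ e = X ^ (e / t) := by
    rw [hYdef, ← Real.rpow_mul (by linarith)]
    congr 1
    ring
  -- the map
  have hex : ∀ L ∈ Pool.Agent.D0H64.WS.FldP K n (P0K K n) Y, ∃ F ∈ FieldsK K H X,
      IntermediateField.normalClosure K F (AlgebraicClosure K) =
        IntermediateField.normalClosure K L (AlgebraicClosure K) ∧ Module.finrank K L = n := by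
    rintro L ⟨h1, ⟨hNF, h2⟩, h3, h4⟩
    obtain ⟨F, hF1, hF2, hNF', hF3⟩ := hFLD K n H t L hH ht h1 (by omega) h3 (fun p hp hpn => h4 p hp hpn)
    refine ⟨F, ⟨hF1, hNF', ?_⟩, hF2, h1⟩
    have h5 : ((rd K F : ℕ) : ℝ) ≤ ((rd K L : ℕ) : ℝ) ^ t := by
      exact_mod_cast hF3
    have h7 : ((|NumberField.discr L| : ℤ) : ℝ) = (((NumberField.discr L).natAbs : ℕ) : ℝ) := by
      rw [Int.abs_eq_natAbs]
      simp
    have h8 : (rd K L : ℝ) ≤ Y := by
      refine le_trans ?_ h2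
      rw [h7, discr_rd K L]
      push_cast
      refine le_mul_of_one_le_right (Nat.cast_nonneg _) (one_le_pow₀ ?_)
      have h9 : 1 ≤ (NumberField.discr K).natAbs :=
        Nat.one_le_iff_ne_zero.2 (Int.natAbs_ne_zero.2 (NumberField.discr_ne_zero K))
      exact_mod_cast h9
    rw [← hYt]
    exact h5.trans (pow_le_pow_left₀ (Nat.cast_nonneg _) h8 t)
  choose! Φ hΦ1 hΦ2 hΦ3 using hex
  have hcard : (Pool.Agent.D0H64.WS.FldP K n (P0K K n) Y).ncard ≤ C * (FieldsK K H X).ncard := by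
    classical
    have hBf := fieldsK_finite K H hm2 X
    have e1 : (Pool.Agent.D0H64.WS.FldP K n (P0K K n) Y).ncard = hfin.toFinset.card :=
      Set.ncard_eq_toFinset_card _ hfin
    have e2 : (FieldsK K H X).ncard = hBf.toFinset.card := Set.ncard_eq_toFinset_card _ hBf
    rw [e1, e2]
    refine Finset.card_le_mul_card_image_of_maps_to (f := Φ) (fun L hL => ?_) C (fun F hF => ?_)
    · rw [Set.Finite.mem_toFinset] at hL ⊢
      exact hΦ1 L hL
    · obtain ⟨hf, hc⟩ := hC (IntermediateField.normalClosure K F (AlgebraicClosure K))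
      rw [Set.ncard_eq_toFinset_card _ hf] at hc
      refine le_trans (Finset.card_le_card ?_) hc
      intro L hL
      rw [Finset.mem_filter, Set.Finite.mem_toFinset] at hL
      have h10 := hΦ2 L hL.1
      rw [hL.2] at h10
      exact hf.mem_toFinset.2 ⟨hΦ3 L hL.1, h10.symm⟩
  have h9 : Y ^ e ≤ (C : ℝ) * ((FieldsK K H X).ncard : ℝ) := by
    refine hle.trans ?_
    exact_mod_cast hcard
  rw [← hYe, one_div, inv_mul_le_iff₀ (by positivity)]
  refine h9.trans (mul_le_mul_of_nonneg_right (by linarith) (Nat.cast_nonneg _))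

end Pool.Agent.D0H15.TI
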