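import Pool.Agent.D0H15.TI.Stm2

/-!
# Project TI, module FLD2: from an `S_n`-extension of `K` to the field which belongs to `H`
(adapted from `Pool.Agent.D0H28.TI.FLD` of helper28)
-/

set_option autoImplicit false
set_option linter.all false

open NumberField

namespace Pool.Agent.D0H15.TI.Fld2

open Pool.Agent.D0H15.TI IntermediateField

/-- cosets as the points of a homogeneous space -/
theorem cosets {Γ G E : Type} [Group Γ] [Group G] (r : Γ →* G) (hr : Function.Surjective r)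
    (S : Subgroup G) (π : Γ → E) (hπ : Function.Surjective π)
    (h : ∀ σ τ, π σ = π τ ↔ r (σ⁻¹ * τ) ∈ S) :
    ∃ e : E ≃ G ⧸ S, ∀ σ, e (π σ) = (r σ : G ⧸ S) := by
  have key : ∀ σ, ((r (Function.surjInv hπ (π σ)) : G) : G ⧸ S) = (r σ : G ⧸ S) := by
    intro σ
    rw [QuotientGroup.eq, ← map_inv, ← map_mul]
    exact (h _ _).1 (Function.surjInv_eq hπ (π σ))
  refine ⟨Equiv.ofBijective (fun e => ((r (Function.surjInv hπ e) : G) : G ⧸ S)) ⟨?_, ?_⟩, key⟩
  · intro e₁ e₂ he
    obtain ⟨σ, rfl⟩ := hπ e₁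
    obtain ⟨τ, rfl⟩ := hπ e₂
    simp only [key] at he
    rw [QuotientGroup.eq, ← map_inv, ← map_mul] at he
    exact (h _ _).2 he
  · intro x
    obtain ⟨g, rfl⟩ := QuotientGroup.mk_surjective x
    obtain ⟨σ, rfl⟩ := hr g
    exact ⟨π σ, key σ⟩

variable {K₀ : Type} [Field K₀] [CharZero K₀]

/-- the restriction of an automorphism to `K` -/
noncomputable def pr (K : IntermediateField K₀ (AlgebraicClosure K₀)) (σ : (AlgebraicClosure K₀) ≃ₐ[K₀] (AlgebraicClosure K₀)) : K →ₐ[K₀] (AlgebraicClosure K₀) :=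
  σ.toAlgHom.comp K.val

theorem pr_apply (K : IntermediateField K₀ (AlgebraicClosure K₀)) (σ : (AlgebraicClosure K₀) ≃ₐ[K₀] (AlgebraicClosure K₀)) (x : K) : pr K σ x = σ x := rfl

theorem pr_mul (K : IntermediateField K₀ (AlgebraicClosure K₀)) (σ τ : (AlgebraicClosure K₀) ≃ₐ[K₀] (AlgebraicClosure K₀)) :
    pr K (σ * τ) = σ.toAlgHom.comp (pr K τ) := rfl

theorem pr_surj (K : IntermediateField K₀ (AlgebraicClosure K₀)) : Function.Surjective (pr K) := by
  intro φ
  let ψ : (AlgebraicClosure K₀) →ₐ[K₀] (AlgebraicClosure K₀) := φ.liftNormal (AlgebraicClosure K₀)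
  have hψ : Function.Bijective ψ := Algebra.IsAlgebraic.algHom_bijective ψ
  refine ⟨AlgEquiv.ofBijective ψ hψ, ?_⟩
  ext x
  exact φ.liftNormal_commutes (AlgebraicClosure K₀) x

theorem pr_eq (K : IntermediateField K₀ (AlgebraicClosure K₀)) (σ τ : (AlgebraicClosure K₀) ≃ₐ[K₀] (AlgebraicClosure K₀)) :
    pr K σ = pr K τ ↔ σ⁻¹ * τ ∈ K.fixingSubgroup := by
  rw [IntermediateField.mem_fixingSubgroup_iff]
  constructor
  · intro h x hx
    have h1 : pr K σ ⟨x, hx⟩ = pr K τ ⟨x, hx⟩ := by rw [h]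
    rw [pr_apply, pr_apply] at h1
    change σ⁻¹ (τ x) = x
    rw [← h1]
    exact σ.symm_apply_apply x
  · intro h
    ext x
    rw [pr_apply, pr_apply]
    have h1 : σ⁻¹ (τ (x : (AlgebraicClosure K₀))) = x := h x x.2
    have h2 : σ (σ⁻¹ (τ (x : (AlgebraicClosure K₀)))) = σ (x : (AlgebraicClosure K₀)) := by rw [h1]
    rw [← h2]
    exact (σ.apply_symm_apply _)

/-- the elements which fix the normal closure -/
theorem fix_nc (K : IntermediateField K₀ (AlgebraicClosure K₀)) (σ : (AlgebraicClosure K₀) ≃ₐ[K₀] (AlgebraicClosure K₀)) :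
    σ ∈ (normalClosure K₀ K (AlgebraicClosure K₀)).fixingSubgroup ↔ ∀ φ : K →ₐ[K₀] (AlgebraicClosure K₀), σ.toAlgHom.comp φ = φ := by
  have h0 : σ ∈ (normalClosure K₀ K (AlgebraicClosure K₀)).fixingSubgroup ↔
      normalClosure K₀ K (AlgebraicClosure K₀) ≤ fixedField (Subgroup.zpowers σ) := by
    rw [IntermediateField.le_iff_le, Subgroup.zpowers_le]
  rw [h0, normalClosure_le_iff]
  refine forall_congr' fun φ => ?_
  constructor
  · intro h
    ext x
    have h1 : φ x ∈ fixedField (Subgroup.zpowers σ) := h ⟨x, rfl⟩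
    rw [IntermediateField.mem_fixedField_iff] at h1
    exact h1 σ (Subgroup.mem_zpowers σ)
  · rintro h _ ⟨x, rfl⟩
    have h2 : σ ∈ (φ.fieldRange).fixingSubgroup := by
      rw [IntermediateField.mem_fixingSubgroup_iff]
      rintro _ ⟨y, rfl⟩
      exact DFunLike.congr_fun h y
    have h3 : Subgroup.zpowers σ ≤ (φ.fieldRange).fixingSubgroup := by
      rw [Subgroup.zpowers_le]; exact h2
    have h4 := (IntermediateField.le_iff_le (Subgroup.zpowers σ) φ.fieldRange).2 h3
    exact h4 ⟨x, rfl⟩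

/-- the subfield of `M` which belongs to `K` -/
noncomputable def sub (M : Type) [Field M] [Algebra K₀ M] [Algebra M (AlgebraicClosure K₀)] [IsScalarTower K₀ M (AlgebraicClosure K₀)]
    (K : IntermediateField K₀ (AlgebraicClosure K₀)) : IntermediateField K₀ M :=
  K.comap (IsScalarTower.toAlgHom K₀ M (AlgebraicClosure K₀))

theorem mem_sub (M : Type) [Field M] [Algebra K₀ M] [Algebra M (AlgebraicClosure K₀)] [IsScalarTower K₀ M (AlgebraicClosure K₀)] (K : IntermediateField K₀ (AlgebraicClosure K₀))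
    (x : M) : x ∈ sub M K ↔ algebraMap M (AlgebraicClosure K₀) x ∈ K := Iff.rfl

/-- `K` as a subfield of `M` is `K` -/
theorem eqv (M : Type) [Field M] [Algebra K₀ M] [Algebra M (AlgebraicClosure K₀)] [IsScalarTower K₀ M (AlgebraicClosure K₀)] (K : IntermediateField K₀ (AlgebraicClosure K₀))
    (hK : ∀ x ∈ K, ∃ y : M, algebraMap M (AlgebraicClosure K₀) y = x) : Nonempty (sub M K ≃ₐ[K₀] K) := by
  let f : sub M K →ₐ[K₀] K :=
    { toFun := fun x => ⟨algebraMap M (AlgebraicClosure K₀) x.1, x.2⟩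
      map_one' := Subtype.ext (map_one (algebraMap M (AlgebraicClosure K₀)))
      map_zero' := Subtype.ext (map_zero (algebraMap M (AlgebraicClosure K₀)))
      map_add' := fun x y => Subtype.ext (map_add (algebraMap M (AlgebraicClosure K₀)) x.1 y.1)
      map_mul' := fun x y => Subtype.ext (map_mul (algebraMap M (AlgebraicClosure K₀)) x.1 y.1)
      commutes' := fun c => Subtype.ext (IsScalarTower.algebraMap_apply K₀ M (AlgebraicClosure K₀) c).symm }
  refine ⟨AlgEquiv.ofBijective f ⟨f.injective, ?_⟩⟩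
  intro x
  obtain ⟨y, hy⟩ := hK x x.2
  exact ⟨⟨y, by rw [mem_sub, hy]; exact x.2⟩, Subtype.ext hy⟩

theorem discr_rd (K E : Type) [Field K] [NumberField K] [Field E] [NumberField E] [Algebra K E] :
    (NumberField.discr E).natAbs = rd K E * (NumberField.discr K).natAbs ^ Module.finrank K E :=
  NumberField.natAbs_discr_eq_absNorm_differentIdeal_mul_natAbs_discr_pow K (𝓞 K) E (𝓞 E)

theorem rd_congr {E E' : Type} [Field E] [NumberField E] [Algebra K₀ E] [Field E'] [NumberField E'] [Algebra K₀ E']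
    [NumberField K₀] (u : E ≃ₐ[K₀] E') : rd K₀ E = rd K₀ E' := by
  have h1 := discr_rd K₀ E
  rw [NumberField.discr_eq_discr_of_ringEquiv E u.toRingEquiv, discr_rd K₀ E', u.toLinearEquiv.finrank_eq] at h1
  have h2 : 0 < (NumberField.discr K₀).natAbs ^ Module.finrank K₀ E' :=
    pow_pos (Int.natAbs_pos.2 (NumberField.discr_ne_zero K₀)) _
  exact (Nat.eq_of_mul_eq_mul_right h2 h1).symm

/-- the cosets at the finite level -/
theorem level (M : Type) [Field M] [Algebra K₀ M] [Algebra M (AlgebraicClosure K₀)] [IsScalarTower K₀ M (AlgebraicClosure K₀)] [Normal K₀ M]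
    (K : IntermediateField K₀ (AlgebraicClosure K₀)) (hK : ∀ x ∈ K, ∃ y : M, algebraMap M (AlgebraicClosure K₀) y = x) :
    ∃ e : (K →ₐ[K₀] (AlgebraicClosure K₀)) ≃ ((M ≃ₐ[K₀] M) ⧸ (sub M K).fixingSubgroup),
      ∀ σ : (AlgebraicClosure K₀) ≃ₐ[K₀] (AlgebraicClosure K₀), e (pr K σ) =
        QuotientGroup.mk (s := (sub M K).fixingSubgroup) (AlgEquiv.restrictNormalHom M σ) := by
  refine cosets (AlgEquiv.restrictNormalHom M) (AlgEquiv.restrictNormalHom_surjective (AlgebraicClosure K₀)) _ (pr K)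
    (pr_surj K) ?_
  intro σ τ
  rw [pr_eq, IntermediateField.mem_fixingSubgroup_iff, IntermediateField.mem_fixingSubgroup_iff]
  have hc : ∀ x : M, algebraMap M (AlgebraicClosure K₀) (AlgEquiv.restrictNormalHom M (σ⁻¹ * τ) x) =
      (σ⁻¹ * τ) (algebraMap M (AlgebraicClosure K₀) x) :=
    fun x => AlgEquiv.restrictNormal_commutes (σ⁻¹ * τ) M x
  constructor
  · intro h x hx
    apply (algebraMap M (AlgebraicClosure K₀)).injective
    rw [hc]
    exact h _ ((mem_sub M K x).1 hx)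
  · intro h x hx
    obtain ⟨y, rfl⟩ := hK x hx
    rw [← hc, h y ((mem_sub M K y).2 hx)]

/-- the permutations of the embeddings -/
noncomputable def act (K : IntermediateField K₀ (AlgebraicClosure K₀)) :
    ((AlgebraicClosure K₀) ≃ₐ[K₀] (AlgebraicClosure K₀)) →* Equiv.Perm (K →ₐ[K₀] (AlgebraicClosure K₀)) where
  toFun σ :=
    { toFun := fun φ => σ.toAlgHom.comp φ
      invFun := fun φ => σ.symm.toAlgHom.comp φ
      left_inv := fun φ => by ext x; exact σ.symm_apply_apply _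
      right_inv := fun φ => by ext x; exact σ.apply_symm_apply _ }
  map_one' := by ext; rfl
  map_mul' σ τ := by ext; rfl

theorem act_apply (K : IntermediateField K₀ (AlgebraicClosure K₀)) (σ : (AlgebraicClosure K₀) ≃ₐ[K₀] (AlgebraicClosure K₀)) (φ : K →ₐ[K₀] (AlgebraicClosure K₀)) :
    act K σ φ = σ.toAlgHom.comp φ := rfl

/-- equivariance -/
theorem equiv {G : Type} [Group G] (r : ((AlgebraicClosure K₀) ≃ₐ[K₀] (AlgebraicClosure K₀)) →* G) (S : Subgroup G)
    (K : IntermediateField K₀ (AlgebraicClosure K₀)) (e : (K →ₐ[K₀] (AlgebraicClosure K₀)) ≃ G ⧸ S)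
    (he : ∀ σ : (AlgebraicClosure K₀) ≃ₐ[K₀] (AlgebraicClosure K₀), e (pr K σ) = QuotientGroup.mk (s := S) (r σ))
    (σ : (AlgebraicClosure K₀) ≃ₐ[K₀] (AlgebraicClosure K₀)) (φ : K →ₐ[K₀] (AlgebraicClosure K₀)) : e (σ.toAlgHom.comp φ) = r σ • e φ := by
  obtain ⟨τ, rfl⟩ := pr_surj K φ
  rw [← pr_mul, he, he, map_mul]
  rfl

/-- the statement for a field isomorphic to the normal closure -/
theorem t_FLD_aux [NumberField K₀] (hD : S_DISC2) (n : ℕ) (H : Subgroup (Equiv.Perm (Fin n))) (t : ℕ)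
    (L : IntermediateField K₀ (AlgebraicClosure K₀)) [NumberField L] (hH : H.normalCore = ⊥)
    (ht : ∀ s : Equiv.Perm (Fin n), s.IsSwap →
      Nat.card {z : Equiv.Perm (Fin n) ⧸ H // s • z ≠ z} ≤ 2 * t)
    (hn : Module.finrank K₀ L = n) (hn1 : 1 ≤ n) (hS : SymK L)
    (hp : ∀ p : ℕ, p.Prime → p ≤ n → ¬ p ∣ rd K₀ L)
    (M : Type) [Field M] [NumberField M] [Algebra K₀ M] [IsGalois K₀ M] [Algebra M (AlgebraicClosure K₀)] [IsScalarTower K₀ M (AlgebraicClosure K₀)]
    (hM : ∀ x : (AlgebraicClosure K₀), x ∈ normalClosure K₀ L (AlgebraicClosure K₀) ↔ ∃ y : M, algebraMap M (AlgebraicClosure K₀) y = x) :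
    ∃ F : IntermediateField K₀ (AlgebraicClosure K₀), TypK H F ∧
      IntermediateField.normalClosure K₀ F (AlgebraicClosure K₀) = IntermediateField.normalClosure K₀ L (AlgebraicClosure K₀) ∧
      ∃ _ : NumberField F, rd K₀ F ≤ rd K₀ L ^ t := by
  classical
  set N := normalClosure K₀ L (AlgebraicClosure K₀) with hN
  have hfL : FiniteDimensional K₀ L := Module.Finite.of_restrictScalars_finite ℚ K₀ L
  have hcard : Fintype.card (L →ₐ[K₀] (AlgebraicClosure K₀)) = n := by rw [AlgHom.card]; exact hn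
  let e₀ : (L →ₐ[K₀] (AlgebraicClosure K₀)) ≃ Fin n := Fintype.equivFinOfCardEq hcard
  let ρ : ((AlgebraicClosure K₀) ≃ₐ[K₀] (AlgebraicClosure K₀)) →* Equiv.Perm (Fin n) := (e₀.permCongrHom).toMonoidHom.comp (act L)
  have hρa : ∀ σ (i : Fin n), ρ σ i = e₀ (σ.toAlgHom.comp (e₀.symm i)) := fun σ i => rfl
  have hρ : Function.Surjective ρ := by
    intro π
    obtain ⟨σ, hσ⟩ := hS ((e₀.permCongr).symm π)
    refine ⟨σ, ?_⟩
    ext i
    rw [hρa, ← hσ]
    simp
  have hker : ∀ σ, ρ σ = 1 ↔ σ ∈ N.fixingSubgroup := by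
    intro σ
    rw [hN, fix_nc]
    constructor
    · intro h φ
      have h1 := congrArg (fun π : Equiv.Perm (Fin n) => π (e₀ φ)) h
      simp only [hρa, Equiv.symm_apply_apply, Equiv.Perm.coe_one, id] at h1
      exact e₀.injective h1
    · intro h
      ext i
      rw [hρa, h]; simp
  have hNker : N.fixingSubgroup ≤ H.comap ρ := by
    intro σ hσ
    change ρ σ ∈ H
    rw [(hker σ).2 hσ]; exact H.one_mem
  have hfN : FiniteDimensional K₀ N := normalClosure.is_finiteDimensional K₀ L (AlgebraicClosure K₀)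
  have hopen : IsOpen (H.comap ρ : Set ((AlgebraicClosure K₀) ≃ₐ[K₀] (AlgebraicClosure K₀))) :=
    Subgroup.isOpen_mono hNker (N.fixingSubgroup_isOpen)
  have hcl : IsClosed (H.comap ρ : Set ((AlgebraicClosure K₀) ≃ₐ[K₀] (AlgebraicClosure K₀))) := Subgroup.isClosed_of_isOpen _ hopen
  let F : IntermediateField K₀ (AlgebraicClosure K₀) := fixedField (H.comap ρ)
  have hF : F.fixingSubgroup = H.comap ρ :=
    InfiniteGalois.fixingSubgroup_fixedField
      (⟨H.comap ρ, hcl⟩ : ClosedSubgroup ((AlgebraicClosure K₀) ≃ₐ[K₀] (AlgebraicClosure K₀)))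
  have hFN : F ≤ N := by
    rw [← InfiniteGalois.fixedField_fixingSubgroup N]
    intro x hx
    rw [IntermediateField.mem_fixedField_iff] at hx ⊢
    exact fun f hf => hx f (hNker hf)
  have hLN : L ≤ N := IntermediateField.le_normalClosure L
  have hLM : ∀ x ∈ L, ∃ y : M, algebraMap M (AlgebraicClosure K₀) y = x := fun x hx => (hM x).1 (hLN hx)
  have hFM : ∀ x ∈ F, ∃ y : M, algebraMap M (AlgebraicClosure K₀) y = x := fun x hx => (hM x).1 (hFN hx)
  obtain ⟨eF, heF0⟩ := cosets ρ hρ H (pr F) (pr_surj F) (fun σ τ => by rw [pr_eq, hF]; rfl)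
  have heF := equiv ρ H F eF heF0
  obtain ⟨eL, heL0⟩ := level M L hLM
  have heL := equiv _ _ L eL heL0
  obtain ⟨eG, heG0⟩ := level M F hFM
  have heG := equiv _ _ F eG heG0
  have hfix : (normalClosure K₀ F (AlgebraicClosure K₀)).fixingSubgroup = N.fixingSubgroup := by
    ext σ
    rw [fix_nc, ← hker]
    have h1 : ρ σ = 1 ↔ ρ σ ∈ H.normalCore := by rw [hH, Subgroup.mem_bot]
    rw [h1, Subgroup.normalCore_eq_ker, MonoidHom.mem_ker, Equiv.ext_iff]
    constructor
    · intro h z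
      obtain ⟨φ, rfl⟩ := eF.surjective z
      change ρ σ • eF φ = eF φ
      rw [← heF, h]
    · intro h φ
      apply eF.injective
      rw [heF]
      exact h (eF φ)
  have hnc : normalClosure K₀ F (AlgebraicClosure K₀) = N := by
    rw [← InfiniteGalois.fixedField_fixingSubgroup (normalClosure K₀ F (AlgebraicClosure K₀)), hfix,
      InfiniteGalois.fixedField_fixingSubgroup N]
  obtain ⟨uL⟩ := eqv M L hLM
  obtain ⟨uF⟩ := eqv M F hFM
  have hNF : NumberField F := NumberField.of_ringEquiv _ _ uF.toRingEquiv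
  refine ⟨F, ⟨eF, ρ, hρ, heF⟩, hnc, hNF, ?_⟩
  have hdL : rd K₀ (sub M L) = rd K₀ L :=
    rd_congr uL
  have hdF : rd K₀ (sub M F) = rd K₀ F :=
    rd_congr uF
  rw [← hdL, ← hdF]
  have hsurj : Function.Surjective
      (AlgEquiv.restrictNormalHom M : ((AlgebraicClosure K₀) ≃ₐ[K₀] (AlgebraicClosure K₀)) →* (M ≃ₐ[K₀] M)) :=
    AlgEquiv.restrictNormalHom_surjective (AlgebraicClosure K₀)
  refine hD K₀ M (sub M L) (sub M F) t ?_ ?_ ?_ ?_
  · rw [eq_bot_iff]
    intro g hg
    obtain ⟨σ, rfl⟩ := hsurj g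
    rw [Subgroup.normalCore_eq_ker, MonoidHom.mem_ker, Equiv.ext_iff] at hg
    have h2 : σ ∈ N.fixingSubgroup := by
      rw [hN, fix_nc]
      intro φ
      apply eL.injective
      rw [heL]
      exact hg (eL φ)
    rw [Subgroup.mem_bot]
    ext x
    apply (algebraMap M (AlgebraicClosure K₀)).injective
    have h3 : algebraMap M (AlgebraicClosure K₀) (AlgEquiv.restrictNormalHom M σ x) = σ (algebraMap M (AlgebraicClosure K₀) x) :=
      AlgEquiv.restrictNormal_commutes σ M x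
    rw [h3]
    rw [IntermediateField.mem_fixingSubgroup_iff] at h2
    exact h2 _ ((hM _).2 ⟨x, rfl⟩)
  · intro a b
    obtain ⟨σ, hσ⟩ := hS ((eL.permCongr).symm (Equiv.swap a b))
    refine ⟨AlgEquiv.restrictNormalHom M σ, fun x => ?_⟩
    obtain ⟨φ, rfl⟩ := eL.surjective x
    rw [← heL, ← hσ]
    simp
  · rintro g ⟨a, b, hab, hg⟩
    obtain ⟨σ, rfl⟩ := hsurj g
    have hsw : ρ σ = Equiv.swap (e₀ (eL.symm a)) (e₀ (eL.symm b)) := by
      ext i
      have h4 : eL (σ.toAlgHom.comp (e₀.symm i)) = Equiv.swap a b (eL (e₀.symm i)) := by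
        rw [heL, hg]
      rw [hρa, ← eL.symm_apply_apply (σ.toAlgHom.comp (e₀.symm i)), h4]
      have h5 : ∀ y, e₀ (eL.symm (Equiv.swap a b (eL (e₀.symm y)))) =
          Equiv.swap (e₀ (eL.symm a)) (e₀ (eL.symm b)) y := by
        intro y
        have h6 := Equiv.symm_trans_swap_trans a b (eL.symm.trans e₀)
        have h7 := Equiv.congr_fun h6 y
        simpa using h7
      rw [h5]
    have his : (ρ σ).IsSwap :=
      ⟨_, _, fun h => hab (eL.symm.injective (e₀.injective h)), hsw⟩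
    refine le_trans (le_of_eq ?_) (ht (ρ σ) his)
    refine Nat.card_congr ((eG.symm.trans eF).subtypeEquiv ?_)
    intro z
    obtain ⟨φ, rfl⟩ := eG.surjective z
    rw [← heG, Equiv.trans_apply, Equiv.symm_apply_apply, ← heF, eG.injective.ne_iff,
      eF.injective.ne_iff]
  · intro p hpp hpn
    rw [hdL]
    refine hp p hpp (le_trans hpn (le_of_eq ?_))
    rw [← hn]
    exact uL.toLinearEquiv.finrank_eq

theorem t_FLD2 : S_DISC2 → S_FLD2 := by
  intro hD K₀ _ _ n H t L _ hH ht hn hn1 hS hp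
  have hfL : FiniteDimensional K₀ L := Module.Finite.of_restrictScalars_finite ℚ K₀ L
  have hfN : FiniteDimensional K₀ (normalClosure K₀ L (AlgebraicClosure K₀)) :=
    normalClosure.is_finiteDimensional K₀ L (AlgebraicClosure K₀)
  have hNN : NumberField (normalClosure K₀ L (AlgebraicClosure K₀)) :=
    NumberField.of_module_finite K₀ _
  have hnor : Normal K₀ (normalClosure K₀ L (AlgebraicClosure K₀)) :=
    normalClosure.normal K₀ L (AlgebraicClosure K₀)
  have hgal : IsGalois K₀ (normalClosure K₀ L (AlgebraicClosure K₀)) := ⟨⟩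
  exact t_FLD_aux hD n H t L hH ht hn hn1 hS hp (normalClosure K₀ L (AlgebraicClosure K₀))
    (fun x => ⟨fun hx => ⟨⟨x, hx⟩, rfl⟩, fun ⟨y, hy⟩ => by rw [← hy]; exact y.2⟩)

end Pool.Agent.D0H15.TI.Fld2
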