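import Pool.Agent.D0H15.TI.Stm2

/-!
# Few fields have the same normal closure (adapted from `Pool.Agent.D0H53.TI.Sub` of helper53)
-/

set_option autoImplicit false
set_option linter.all false

open NumberField

namespace Pool.Agent.D0H15.TI.Sub2

open Pool.Agent.D0H15.TI

theorem finrank_sup {K₀ : Type} [Field K₀] (ι : Type) (s : Finset ι) (K : ι → IntermediateField K₀ (AlgebraicClosure K₀)) (n : ℕ)
    (h : ∀ i ∈ s, Module.finrank K₀ (K i) = n) : Module.finrank K₀ (s.sup K : IntermediateField K₀ (AlgebraicClosure K₀)) ≤ n ^ s.card := by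
  classical
  induction s using Finset.induction_on with
  | empty =>
    rw [Finset.sup_empty, Finset.card_empty, pow_zero, IntermediateField.finrank_bot]
  | insert a s ha ih =>
    rw [Finset.sup_insert, Finset.card_insert_of_notMem ha, pow_succ, mul_comm]
    refine (IntermediateField.finrank_sup_le _ _).trans ?_
    rw [h a (Finset.mem_insert_self a s)]
    exact Nat.mul_le_mul_left _ (ih fun i hi => h i (Finset.mem_insert_of_mem hi))

theorem finrank_closure {K₀ : Type} [Field K₀] [CharZero K₀] (n : ℕ) (hn : 1 ≤ n) (L : IntermediateField K₀ (AlgebraicClosure K₀)) (hL : Module.finrank K₀ L = n) :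
    Module.finrank K₀ (IntermediateField.normalClosure K₀ L (AlgebraicClosure K₀)) ≤ n ^ n := by
  classical
  have hfd : FiniteDimensional K₀ L := Module.finite_of_finrank_pos (by omega)
  have h1 : IntermediateField.normalClosure K₀ L (AlgebraicClosure K₀) =
      (Finset.univ : Finset (L →ₐ[K₀] AlgebraicClosure K₀)).sup fun f => f.fieldRange := by
    rw [Finset.sup_univ_eq_iSup]
    exact normalClosure_def K₀ L (AlgebraicClosure K₀)
  rw [h1]
  have h2 := finrank_sup (L →ₐ[K₀] AlgebraicClosure K₀) Finset.univ (fun f => f.fieldRange) n (by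
    intro f _
    rw [← hL]
    exact (AlgEquiv.ofInjectiveField f).toLinearEquiv.finrank_eq.symm)
  refine h2.trans (le_of_eq ?_)
  rw [Finset.card_univ, AlgHom.card, hL]

theorem card_subgroup (G : Type) [Group G] [Finite G] : Finite (Subgroup G) ∧ Nat.card (Subgroup G) ≤ 2 ^ Nat.card G := by
  classical
  have := Fintype.ofFinite G
  have hinj : Function.Injective (fun H : Subgroup G => (H : Set G)) := SetLike.coe_injective
  refine ⟨Finite.of_injective _ hinj, ?_⟩
  refine (Nat.card_le_card_of_injective _ hinj).trans (le_of_eq ?_)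
  rw [Nat.card_eq_fintype_card, Fintype.card_set, Nat.card_eq_fintype_card]

theorem t_SUB2 : S_SUB2 := by
  intro K₀ _ _ n hn
  refine ⟨2 ^ (n ^ n), fun N => ?_⟩
  rcases Set.eq_empty_or_nonempty {L : IntermediateField K₀ (AlgebraicClosure K₀) | Module.finrank K₀ L = n ∧
    IntermediateField.normalClosure K₀ L (AlgebraicClosure K₀) = N} with h0 | ⟨L₀, hL₀, hN⟩
  · rw [h0]
    exact ⟨Set.finite_empty, by simp⟩
  · subst hN
    have hfd : FiniteDimensional K₀ L₀ := Module.finite_of_finrank_pos (by omega)
    set N := IntermediateField.normalClosure K₀ L₀ (AlgebraicClosure K₀) with hNdef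
    have hN1 : Module.finrank K₀ N ≤ n ^ n := finrank_closure n hn L₀ hL₀
    have hfdN : FiniteDimensional K₀ N := normalClosure.is_finiteDimensional K₀ L₀ (AlgebraicClosure K₀)
    have hQb : Normal K₀ (AlgebraicClosure K₀) := inferInstance
    have hnor : Normal K₀ N := normalClosure.normal K₀ L₀ (AlgebraicClosure K₀)
    have hgal : IsGalois K₀ N := ⟨⟩
    obtain ⟨hf, hc⟩ := card_subgroup (N ≃ₐ[K₀] N)
    have e : IntermediateField K₀ N ≃ Subgroup (N ≃ₐ[K₀] N) :=
      IsGalois.intermediateFieldEquivSubgroup.toEquiv.trans OrderDual.ofDual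
    have hfin : Finite (IntermediateField K₀ N) := Finite.of_equiv _ e.symm
    have hcard : Nat.card (IntermediateField K₀ N) ≤ 2 ^ (n ^ n) := by
      rw [Nat.card_congr e]
      refine hc.trans (Nat.pow_le_pow_right (by norm_num) ?_)
      rw [IsGalois.card_aut_eq_finrank]
      exact hN1
    have hsub : {L : IntermediateField K₀ (AlgebraicClosure K₀) | Module.finrank K₀ L = n ∧
        IntermediateField.normalClosure K₀ L (AlgebraicClosure K₀) = N} ⊆ Set.range (fun E : IntermediateField K₀ N => IntermediateField.lift E) := by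
      rintro L ⟨-, hL⟩
      have hle : L ≤ N := by
        rw [← hL]
        exact IntermediateField.le_normalClosure L
      exact ⟨IntermediateField.restrict hle, IntermediateField.lift_restrict hle⟩
    have hfr : (Set.range (fun E : IntermediateField K₀ N => IntermediateField.lift E)).Finite := Set.finite_range _
    refine ⟨hfr.subset hsub, (Set.ncard_le_ncard hsub hfr).trans ?_⟩
    refine le_trans ?_ hcard
    rw [← Set.image_univ, ← Set.ncard_univ]
    exact Set.ncard_image_le Set.finite_univ

end Pool.Agent.D0H15.TI.Sub2
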