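import Mathlib

/-!
# Project TI: the symmetric group in all its transitive permutation representations (MP_af4c59_nt)

THEOREM.  There is `n₀` such that for every `n ≥ n₀` and EVERY subgroup `H` of `S_n` with trivial core the number of
the number fields `F` of degree `[S_n : H]`, whose Galois closure has the group `S_n`, acting on the embeddings of `F` as on
`S_n / H`, and with `|disc F| ≤ X`, is `≫ X ^ ((1/2 + 4/(3n) - 16 (log n)^2/n^2) / t)`, where `t` is the index of a transposition in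
this action (the number of its 2-cycles on `S_n / H`).  (Malle's exponent is `1 / t` if no element has a smaller index.)

PROOF.  Take the `S_n`-fields `L` of degree `n` with `|disc L| ≤ X^(1/t)` which are unramified at all primes `p ≤ n`
(`Pool.Agent.D0H64.WS.expo'`: a congruence condition on the polynomials forces this), `M` = Galois closure,
`F = M ^ H`.  For `p > n` the discriminant exponent of `p` in every subfield `K` of `M` is the index of the inertia
group `I`: `[K : ℚ] - #(I-orbits on G / G_K)` (module IND), and `index of I on S_n / H ≤ t * (index of I on n letters)` (module COMB).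
So `|disc F| ≤ |disc L| ^ t`.  The map `L ↦ F` is finite-to-one, since `F` determines `M`.

Prove `theorem t_XXX : S_XXX` (or `S_YYY → S_XXX` where it is written) in `Pool/Agent/D0H<your number>/TI/XXX.lean`.
All modules but DAT import only this file (Mathlib).
-/

set_option autoImplicit false

open NumberField

namespace Pool.Agent.D0H15.TI

/-- the number of orbits of the subgroup `I` on the cosets of `H` -/
noncomputable def orb {G : Type} [Group G] (I H : Subgroup G) : ℕ :=
  Nat.card (MulAction.orbitRel.Quotient I (G ⧸ H))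

/-- 1 BURN (15 min).  Burnside's lemma.

PROOF. `MulAction.sum_card_fixedBy_eq_card_orbits_mul_card_group` for `I` acting on `G ⧸ H`: `∑_{i ∈ I} #Fix(i) = |I| orb I H`; the coset
`x H` is fixed by `i` iff `x⁻¹ i x ∈ H`, so `#{x ∈ G : x⁻¹ i x ∈ H} = |H| #Fix(i)`; exchange the sums and replace `x` by `g = x⁻¹`. -/
def S_BURN : Prop := ∀ (G : Type) [Group G] [Fintype G] (I H : Subgroup G),
  ∑ g : G, Nat.card {i : G // i ∈ I ∧ g * i * g⁻¹ ∈ H} = Nat.card I * Nat.card H * orb I H

open scoped Classical in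
/-- 2 COMB (30 min).  The index in an arbitrary action of a full symmetric group.  `G` acts faithfully on `X`, all
transpositions of `X` are in the image, and every element which acts as a transposition on `X` moves at most
`2 t` points of `Z`.

PROOF. `G ≃ Perm X` (the transpositions generate).  Let `O_1, .., O_s` be the orbits of `I` on `X`, with base points `x_j`, and for `x ∈ O_j`, `x ≠ x_j`, let
`g_x ∈ G` be the element which acts as the transposition `(x_j x)`; there are `|X| - s` of them.  Let `Y` be the subgroup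
generated by the `g_x`.  `I ≤ Y` (an element of `I` maps every `x` into its orbit; see
`Equiv.Perm.mem_closure_isSwap` / `mem_closure_isSwap'` in `Mathlib.GroupTheory.Perm.ClosureSwap`), hence every `I`-orbit on `Z` is contained in a
`Y`-orbit, and it is enough to see that `Y` has at least `|Z| - t (|X| - s)` orbits on `Z`.  In general: for a finite
set `T` of involutions each of which moves at most `2 t` points of `Z` the group generated by `T` has at least
`|Z| - t |T|` orbits (induction on `T`: the orbits of `⟨T, g⟩` are the classes of the relation generated by the relation of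
`⟨T⟩` and the at most `t` pairs `{z, g z}`, `z ≠ g z`; adding one pair to an equivalence relation lowers the number of
classes by at most one; or: a graph with `|Z|` vertices and `m` edges has at least `|Z| - m` components). -/
def S_COMB : Prop := ∀ (G X Z : Type) [Group G] [Finite G] [Finite X] [Finite Z] [MulAction G X] [MulAction G Z]
  (t : ℕ), (∀ g : G, (∀ x : X, g • x = x) → g = 1) →
  (∀ a b : X, ∃ g : G, ∀ x : X, g • x = Equiv.swap a b x) →
  (∀ g : G, (∃ a b : X, a ≠ b ∧ ∀ x : X, g • x = Equiv.swap a b x) → Nat.card {z : Z // g • z ≠ z} ≤ 2 * t) →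
  ∀ I : Subgroup G, Nat.card Z + t * Nat.card (MulAction.orbitRel.Quotient I X) ≤
    Nat.card (MulAction.orbitRel.Quotient I Z) + t * Nat.card X

/-- 3 TAME (30 min).  The exponent of the different of a tame prime ideal.

PROOF.  `G = Gal(M/E)`, `i = |I_P|`, `𝔭 = P ∩ 𝓞 E` (`P.under (𝓞 E)`); `i` is the ramification index of all primes over `𝔭`
(`Ideal.card_inertia_eq_ramificationIdxIn`, `Ideal.ramificationIdxIn_eq_ramificationIdx`), so `𝔭 𝓞 M = P^i Q`, `Q = ∏_{P' ≠ P} P'^i`, and the
first claim is `pow_sub_one_dvd_differentIdeal`.  Second claim: `not_dvd_differentIdeal_of_intTrace_not_mem` for `P^i` and `Q`.  Choose `y ∈ 𝓞 M` such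
that the trace of its class in `κ(P) / κ(𝔭)` (finite fields) is not zero, and by CRT (`P^i` and `Q` are coprime) `x ∈ Q` with `x - y ∈ P`.
In `𝓞 M`: `Tr x = ∑_{g ∈ G} g x`.  If `g P ≠ P`, then `g⁻¹ P ≠ P`, so `x ∈ Q ⊆ g⁻¹ P` and `g x ∈ P`.  For `g` in the
stabilizer `D` of `P`, `g x ≡ g y` modulo `P`, and `∑_{g ∈ D} g y ≡ |I| ∑_{τ ∈ Gal(κ(P)/κ(𝔭))} τ(y) = |I| Tr(y) ≠ 0` in `κ(P)` (`D / I ≃ Gal`:
`Ideal.Quotient.stabilizerQuotientInertiaEquiv` or `IsFractionRing.stabilizerQuotientInertiaEquiv`, surjectivity: `stabilizerHom_surjective`).  So `Tr x ∉ 𝔭`.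
(Instances: `IsGaloisGroup (M ≃ₐ[E] M) (𝓞 E) (𝓞 M)` is found automatically.) -/
def S_TAME : Prop := ∀ (E M : Type) [Field E] [NumberField E] [Field M] [NumberField M] [Algebra E M] [IsGalois E M]
  (P : Ideal (𝓞 M)), P.IsMaximal → ((Nat.card (P.inertia (M ≃ₐ[E] M)) : ℕ) : 𝓞 M) ∉ P →
  P ^ (Nat.card (P.inertia (M ≃ₐ[E] M)) - 1) ∣ differentIdeal (𝓞 E) (𝓞 M) ∧
  ¬ P ^ (Nat.card (P.inertia (M ≃ₐ[E] M))) ∣ differentIdeal (𝓞 E) (𝓞 M)

open scoped Pointwise in
/-- 4 NRM (25 min).  The `p`-adic valuation of the norm of an ideal `D`, written as a sum over the Galois group (`v g` is the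
exponent of `g • P` in `D`).

PROOF.  `D` is a product of prime ideals, `absNorm` is multiplicative, `absNorm P'` is `p ^ f(P')` if `p ∈ P'` and prime to `p`
otherwise: `v_p (absNorm D) = ∑_{P' over p} f(P') v_{P'}(D)`.  The primes over `p` are the orbit of `P` and all have the same
`f` (`Ideal.inertiaDeg_eq_of_isGaloisGroup`); `∑_g v g = |Stab P| ∑_{P' over p} v_{P'}(D)`, `|Stab P| = |I| f`
(`Ideal.card_stabilizer_eq_card_inertia_mul_finrank`). -/
def S_NRM : Prop := ∀ (M : Type) [Field M] [NumberField M] [IsGalois ℚ M] (p : ℕ), p.Prime →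
  ∀ P : Ideal (𝓞 M), P.IsMaximal → (p : 𝓞 M) ∈ P → ∀ D : Ideal (𝓞 M), D ≠ ⊥ → ∀ v : (M ≃ₐ[ℚ] M) → ℕ,
  (∀ g : M ≃ₐ[ℚ] M, (g • P) ^ (v g) ∣ D ∧ ¬ (g • P) ^ (v g + 1) ∣ D) →
  Nat.card (P.inertia (M ≃ₐ[ℚ] M)) * padicValNat p (Ideal.absNorm D) = ∑ g : M ≃ₐ[ℚ] M, v g

/-- 5 IND (30 min; prove `S_BURN → S_TAME → S_NRM → S_IND`).  The discriminant exponent at a tame prime is the index
of the inertia group.

PROOF.  `G = Gal(M/ℚ)`, `P` a prime over `p`, `I = I_P`.  For `K ≤ M` let `H = K.fixingSubgroup` and `D = differentIdeal (𝓞 K) (𝓞 M)` (`D ≠ ⊥`: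
`differentIdeal_ne_bot`).  The inertia group of `g • P` in `Gal(M/K)` is `g I g⁻¹ ∩ H` (`IntermediateField.fixingSubgroupEquiv`), of order
`#{i ∈ I : g i g⁻¹ ∈ H}`; it is prime to `p` (its order divides `|G|`), so its order is not in `g • P`.  TAME gives
`v g = #{i ∈ I : g i g⁻¹ ∈ H} - 1`, NRM and BURN give `|I| v_p(N D) + |G| = |I| |H| orb I H`.  For `K = ⊥` (`H = ⊤`, `orb = 1`, `discr ⊥ = ± 1`) this is `|I| v_p(disc M) + |G| = |I| |G|`.
By `NumberField.natAbs_discr_eq_absNorm_differentIdeal_mul_natAbs_discr_pow`, `v_p(disc M) = v_p(N D) + |H| v_p(disc K)`.  So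
`|I| |H| v_p(disc K) = |I| |G| - |I| |H| orb I H`, and `|G| = |H| [K : ℚ]`. -/
def S_IND : Prop := ∀ (M : Type) [Field M] [NumberField M] [IsGalois ℚ M] (p : ℕ), p.Prime →
  ¬ p ∣ Module.finrank ℚ M → ∃ I : Subgroup (M ≃ₐ[ℚ] M), ∀ K : IntermediateField ℚ M,
    padicValNat p (NumberField.discr K).natAbs + orb I K.fixingSubgroup = Module.finrank ℚ K

/-- 6 UNR (20 min).  If `M` is the Galois closure of `L` and `p` is unramified in `L`, then also in all subfields of `M`.

PROOF.  `NumberField.not_dvd_discr_iff_isUnramifiedIn` (or `..._forall_liesOver`).  Let `P` be a prime of `M` over `p`, `P_L = P ∩ 𝓞 L`: `e(P_L / p) = 1`, so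
`|I_P(M/ℚ)| = e(P/p) = e(P/P_L) = |I_P(M/L)| = |I_P ∩ L.fixingSubgroup|`, so `I_P ≤ L.fixingSubgroup`.  This holds for all primes `g • P`,
whose inertia groups are `g I_P g⁻¹`; so `I_P ≤ normalCore = ⊥`, `e(P/p) = 1`; `p` is unramified in `M` (`p ∤ discr M`), and
`discr F ∣ discr M` (`NumberField.discr_dvd_discr`). -/
def S_UNR : Prop := ∀ (M : Type) [Field M] [NumberField M] [IsGalois ℚ M] (L F : IntermediateField ℚ M),
  L.fixingSubgroup.normalCore = ⊥ → ∀ p : ℕ, p.Prime →
  ¬ (p : ℤ) ∣ NumberField.discr L → ¬ (p : ℤ) ∣ NumberField.discr F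

open scoped Classical in
/-- 7 DISC (25 min; prove `S_COMB → S_IND → S_UNR → S_DISC`).

PROOF.  `G = Gal(M/ℚ)`, `n = [L : ℚ] = #(G ⧸ L.fixingSubgroup)`; `G` acts faithfully on these `n` cosets (the core is trivial), so `|G| = [M : ℚ]` divides `n!`.
Let `p` be a prime.  If `p ≤ n`, `p ∤ disc L`, so `p ∤ disc F` by UNR.  If `p > n`, `p ∤ |G|`, and IND and COMB (`X = G ⧸ L.fixingSubgroup`,
`Z = G ⧸ F.fixingSubgroup`, `Nat.card Z = [F : ℚ]`) give `v_p(disc F) = [F:ℚ] - orb ≤ t (n - orb) = t v_p(disc L)`.  So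
`(disc F).natAbs ∣ (disc L).natAbs ^ t` (valuations), and the right side is not zero. -/
def S_DISC : Prop := ∀ (M : Type) [Field M] [NumberField M] [IsGalois ℚ M] (L F : IntermediateField ℚ M) (t : ℕ),
  L.fixingSubgroup.normalCore = ⊥ →
  (∀ a b : (M ≃ₐ[ℚ] M) ⧸ L.fixingSubgroup, ∃ g : M ≃ₐ[ℚ] M, ∀ x, g • x = Equiv.swap a b x) →
  (∀ g : M ≃ₐ[ℚ] M, (∃ a b : (M ≃ₐ[ℚ] M) ⧸ L.fixingSubgroup, a ≠ b ∧ ∀ x, g • x = Equiv.swap a b x) →
    Nat.card {z : (M ≃ₐ[ℚ] M) ⧸ F.fixingSubgroup // g • z ≠ z} ≤ 2 * t) →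
  (∀ p : ℕ, p.Prime → p ≤ Module.finrank ℚ L → ¬ (p : ℤ) ∣ NumberField.discr L) →
  (NumberField.discr F).natAbs ≤ (NumberField.discr L).natAbs ^ t

/-- the algebraic closure of `ℚ` -/
abbrev Qb : Type := AlgebraicClosure ℚ

/-- The Galois group acts on the set of embeddings of `L` as the full symmetric group. -/
def Sym (L : IntermediateField ℚ Qb) : Prop :=
  ∀ τ : Equiv.Perm (L →ₐ[ℚ] Qb), ∃ σ : Qb ≃ₐ[ℚ] Qb, ∀ φ : L →ₐ[ℚ] Qb, τ φ = σ.toAlgHom.comp φ

/-- The Galois group (of the Galois closure) of `F` is `S_n`, and it acts on the embeddings of `F` as on the cosets of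
the subgroup `H`. -/
def Typ {n : ℕ} (H : Subgroup (Equiv.Perm (Fin n))) (F : IntermediateField ℚ Qb) : Prop :=
  ∃ (e : (F →ₐ[ℚ] Qb) ≃ (Equiv.Perm (Fin n) ⧸ H)) (ρ : (Qb ≃ₐ[ℚ] Qb) →* Equiv.Perm (Fin n)),
    Function.Surjective ρ ∧ ∀ (σ : Qb ≃ₐ[ℚ] Qb) (φ : F →ₐ[ℚ] Qb), e (σ.toAlgHom.comp φ) = ρ σ • e φ

/-- 8 FLD (40 min; prove `S_DISC → S_FLD`).  From an `S_n`-field `L` to the field `F` with the same Galois closure which belongs to `H`.
(`t`: every transposition moves at most `2 t` cosets of `H`.)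

PROOF.  `M = IntermediateField.normalClosure ℚ L Qb` (finite Galois over `ℚ`, `L ≤ M`), `G = Gal(M/ℚ)`.  The embeddings
`L →ₐ[ℚ] Qb` have values in `M` and are restrictions of elements of `G`: `Emb(L) ≃ G ⧸ L'.fixingSubgroup` (`L'` = `L` as a subfield of `M`:
`IntermediateField.restrict` or `comap`), `n` elements; fix a bijection with `Fin n`.  This gives `ρ : Gal(Qb/ℚ) →* G →* Perm (Fin n)`, surjective by `Sym L`, and `G →* Perm (Fin n)` is injective (`M` is
generated by the images of `L`), so bijective: `r : G ≃* Perm (Fin n)`.  `F' = fixedField (H.comap r)` in `M`, `F = F'.map M.val` (`IntermediateField.lift F'`).  Then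
`F'.fixingSubgroup = H.comap r`, `Emb(F) ≃ G ⧸ F'.fixingSubgroup ≃ Perm (Fin n) ⧸ H` equivariantly; the normal closure of `F` is `M`, since the
fixing subgroup of the normal closure is the normal core of `H.comap r`, which is trivial.  The discriminant: DISC for `M, L', F'`;
`NumberField.discr_eq_discr_of_algEquiv` (or `..._of_ringEquiv`). -/
def S_FLD : Prop := ∀ (n : ℕ) (H : Subgroup (Equiv.Perm (Fin n))) (t : ℕ) (L : IntermediateField ℚ Qb) [NumberField L],
  H.normalCore = ⊥ →
  (∀ s : Equiv.Perm (Fin n), s.IsSwap → Nat.card {z : Equiv.Perm (Fin n) ⧸ H // s • z ≠ z} ≤ 2 * t) →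
  Module.finrank ℚ L = n → Sym L →
  (∀ p : ℕ, p.Prime → p ≤ n → ¬ (p : ℤ) ∣ NumberField.discr L) →
  ∃ F : IntermediateField ℚ Qb, Typ H F ∧
    IntermediateField.normalClosure ℚ F Qb = IntermediateField.normalClosure ℚ L Qb ∧
    ∃ _ : NumberField F, (NumberField.discr F).natAbs ≤ (NumberField.discr L).natAbs ^ t

/-- 9 SUB (20 min).  Few fields have the same normal closure.

PROOF.  If there is such an `L`, then `N` is a finite Galois extension of `ℚ` whose group `Γ` acts faithfully on the `n` embeddings of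
`L`, so `|Γ| ≤ n!`.  All such `L` are contained in `N`, so correspond to subgroups of `Γ`
(`IsGalois.intermediateFieldEquivSubgroup`), at most `2 ^ (n!)`. -/
def S_SUB : Prop := ∀ n : ℕ, 1 ≤ n → ∃ C : ℕ, ∀ N : IntermediateField ℚ Qb,
  {L : IntermediateField ℚ Qb | Module.finrank ℚ L = n ∧ IntermediateField.normalClosure ℚ L Qb = N}.Finite ∧
  {L : IntermediateField ℚ Qb | Module.finrank ℚ L = n ∧ IntermediateField.normalClosure ℚ L Qb = N}.ncard ≤ C

end Pool.Agent.D0H15.TI
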