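import Pool.Agent.D0H15.TI.Final2
import Pool.Agent.D0H15.TI.Sub2
import Pool.Agent.D0H15.TI.Fld2
import Pool.Agent.D0H21.TI.Disc2
import Pool.Agent.D0H21.TI.Ind2
import Pool.Agent.D0H21.TI.Unr2
import Pool.Agent.D0H21.TI.Burn
import Pool.Agent.D0H10.TI.Nrm2
import Pool.Agent.D0H10.TI.Tame
import Pool.Agent.D0H6.TI.Comb

/-!
# Project TI: the theorem over an arbitrary number field
-/

set_option autoImplicit false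

namespace Pool.Agent.D0H15.TI

theorem ind2 : S_IND2 :=
  Pool.Agent.D0H21.TI.t_IND2 Pool.Agent.D0H21.TI.t_BURN Pool.Agent.D0H10.TI.t_TAME Pool.Agent.D0H10.TI.t_NRM2

theorem disc2 : S_DISC2 := Pool.Agent.D0H21.TI.t_DISC2 Pool.Agent.D0H6.TI.t_COMB ind2 Pool.Agent.D0H21.TI.t_UNR2

theorem main2 : ∃ n₀ : ℕ, ∀ n : ℕ, n₀ ≤ n →
    ∀ H : Subgroup (Equiv.Perm (Fin n)), H.normalCore = ⊥ → ∀ t : ℕ,
    (∀ s : Equiv.Perm (Fin n), s.IsSwap → Nat.card {z : Equiv.Perm (Fin n) ⧸ H // s • z ≠ z} ≤ 2 * t) →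
    ∀ (K : Type) [Field K] [NumberField K],
    ∃ c : ℝ, 0 < c ∧ ∃ X₀ : ℝ, ∀ X : ℝ, X₀ ≤ X → (FieldsK K H X).Finite ∧
      c * X ^ (((1 : ℝ) / 2 + 4 / (3 * n) - 16 * (Real.log n) ^ 2 / (n : ℝ) ^ 2) / t) ≤
        ((FieldsK K H X).ncard : ℝ) :=
  final2 (Fld2.t_FLD2 disc2) Sub2.t_SUB2

end Pool.Agent.D0H15.TI
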